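import Pool.Agent.Helper28.TY.K3
import Pool.Agent.Helper81.TY.LaneSound

/-!
MP_8ee768_co, project TH-Y': the pair word of helper81's lane program is exactly the pair word
`Lam (KB B)` of the blocks meeting `{10, 11, 12}`, and `li 12 xor li 11 xor li 10` is the parity
of the known blocks.
-/

set_option autoImplicit false

namespace Pool.Agent.Helper28.TY

open Finset
open Pool.Agent.Helper89.CV (OddCover)
open Pool.Agent.Helper97.CV
open Pool.Agent.Helper81.TY (zR zT11 zT12 li li_le vb vx fs pc mj sum_inside sum_ex10 ind_zR)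
open Pool.Agent.Helper33.TY (P1 ind)

theorem R10_eq : R10 = Pool.Agent.Helper81.TY.R10 := rfl

theorem P12_eq (B : Finset (Finset (Fin 13))) (s : Finset (Fin 13)) : P12 B s = P1 B s := rfl

theorem lk_eq (B : Finset (Finset (Fin 13))) (q : Finset (Fin 13)) :
    lk B q = li B 12 q + li B 11 q + li B 10 q := rfl

theorem mj_eq {B : Finset (Finset (Fin 13))} {q : Finset (Fin 13)} (hq : q ⊆ R10) :
    mj B q = if 2 ≤ lk B q then 1 else 0 := by
  unfold mj
  rw [ind_zR (B := B) (s := q) hq, lk_eq]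
  unfold li
  by_cases h1 : q ∈ link B 12 <;> by_cases h2 : q ∈ link B 11 <;> by_cases h3 : q ∈ link B 10 <;>
    simp [h1, h2, h3]

theorem bad2_mj (B : Finset (Finset (Fin 13))) {s : Finset (Fin 13)} (hs : s ⊆ R10)
    (h2 : s.card = 2) :
    bad2 B s = ∑ t ∈ (R10.powersetCard 2).filter (Disjoint s), mj B (s ∪ t) := by
  have h := sum_inside (s := s) hs h2 (fun q => mj B q)
  show bad2 B s =
    ∑ t ∈ (Pool.Agent.Helper81.TY.R10.powersetCard 2).filter (Disjoint s), mj B (s ∪ t)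
  rw [← h]
  unfold bad2
  rw [card_filter, sum_filter]
  refine sum_congr rfl fun q _ => ?_
  by_cases h1 : s ⊆ q ∧ q ⊆ R10
  · rw [if_pos (show s ⊆ q ∧ q ⊆ Pool.Agent.Helper81.TY.R10 from h1), mj_eq h1.2]
    refine if_congr ?_ rfl rfl
    exact ⟨fun h => h.2.2, fun h => ⟨h1.1, h1.2, h⟩⟩
  · rw [if_neg (show ¬ (s ⊆ q ∧ q ⊆ Pool.Agent.Helper81.TY.R10) from h1),
      if_neg fun h => h1 ⟨h.1, h.2.1⟩]

theorem Pz_lin {B : Finset (Finset (Fin 13))} (hB : OddCover B) {s : Finset (Fin 13)}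
    (hs : s ⊆ R10) (h2 : s.card = 2) :
    Pz B s + 4 = cnt (zR B) s + (cnt (zT11 B) s + cnt (zT12 B) s) / 2 := by
  have h := sum_ex10 hB (s := s) hs h2
  have h3 : Pz B s = ∑ w ∈ Pool.Agent.Helper81.TY.R10 \ s, ex B (insert 10 (insert w s)) := by
    rw [Pz_eq h2 hs]
    exact sum_congr rfl fun w _ => by rw [insert_comm]
  rw [← h3] at h
  omega

/-- THE PAIR WORD: `fs + pc` is the word of the known blocks plus 4 -/
theorem fs_pc_eq {B : Finset (Finset (Fin 13))} (hB : OddCover B) {s : Finset (Fin 13)}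
    (hs : s ⊆ R10) (h2 : s.card = 2) : fs B s + pc B s = Lam (KB B) s + 4 := by
  have h1 := Lam_KB hB.1 s
  have h3 := Pz_lin hB hs h2
  have h4 := bad2_mj B hs h2
  have e : ∑ t ∈ (R10.powersetCard 2).filter (Disjoint s), mj B (s ∪ t) =
      ∑ t ∈ (R10.powersetCard 2).filter (Disjoint s), vb B (s ∪ t) +
      ∑ t ∈ (R10.powersetCard 2).filter (Disjoint s), (ind (zR B) (s ∪ t) &&& vx B (s ∪ t)) := by
    rw [← sum_add_distrib]
    refine sum_congr rfl fun t ht => ?_
    rw [mem_filter, mem_powersetCard] at ht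
    have hc : (s ∪ t).card = 4 := by
      rw [card_union_of_disjoint ht.2, h2, ht.1.2]
    unfold mj vb vx
    rw [if_pos hc, if_pos hc]
  have h5 : fs B s = cnt (zR B) s +
      ∑ t ∈ (R10.powersetCard 2).filter (Disjoint s), (ind (zR B) (s ∪ t) &&& vx B (s ∪ t)) := by
    unfold fs
    rw [if_pos h2]
    rfl
  have h6 : pc B s = P12 B s + (∑ t ∈ (R10.powersetCard 2).filter (Disjoint s), vb B (s ∪ t)) +
      (cnt (zT11 B) s + cnt (zT12 B) s) / 2 := by
    unfold pc
    rw [if_pos h2]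
    rfl
  omega

/-- the parity of the known blocks on an outside quad -/
theorem par_KB {B : Finset (Finset (Fin 13))} (hB : ∀ b ∈ B, b.card = 5) {q : Finset (Fin 13)}
    (hq : q.card = 4) (hqR : q ⊆ R10) :
    li B 12 q ^^^ li B 11 q ^^^ li B 10 q = cnt (KB B) q % 2 := by
  rw [cnt_KB hB hq hqR, lk_eq]
  unfold li
  by_cases h1 : q ∈ link B 12 <;> by_cases h2 : q ∈ link B 11 <;> by_cases h3 : q ∈ link B 10 <;>
    simp [h1, h2, h3]

end Pool.Agent.Helper28.TY
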