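import Pool.Agent.Helper97.CV.Count

/-!
MP_8ee768_co, project TH-Y': the frame `K = {10, 11, 12}`.

`KB B`: the blocks of `B` meeting `K` (they are known as soon as the links of 10, 11, 12 are).
`cnt_KB`: parities of the quads of the ten outside points; `Lam_KB`: the pair word;
`two_Pz`: the part of the quads through 10 is linear in the link of 10.
-/

set_option autoImplicit false

namespace Pool.Agent.Helper28.TY

open Finset
open Pool.Agent.Helper89.CV (OddCover)
open Pool.Agent.Helper97.CV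

/-- the ten outside points -/
def R10 : Finset (Fin 13) := univ.filter fun v => v.val < 10

/-- the three inner points -/
def K3 : Finset (Fin 13) := {12, 11, 10}

theorem mem_R10 {v : Fin 13} : v ∈ R10 ↔ v.val < 10 := by
  unfold R10
  rw [mem_filter]
  exact ⟨fun h => h.2, fun h => ⟨mem_univ _, h⟩⟩

theorem mem_K3 {v : Fin 13} : v ∈ K3 ↔ 10 ≤ v.val := by
  revert v
  decide

theorem mem_K3' {v : Fin 13} : v ∈ K3 ↔ v = 12 ∨ v = 11 ∨ v = 10 := by
  unfold K3
  rw [mem_insert, mem_insert, mem_singleton]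

theorem notMem_R10 {v : Fin 13} : v ∉ R10 ↔ v ∈ K3 := by
  rw [mem_R10, mem_K3]
  omega

theorem notMem_K3 {v : Fin 13} : v ∉ K3 ↔ v ∈ R10 := by
  rw [mem_R10, mem_K3]
  omega

theorem not_subset_R10 {s : Finset (Fin 13)} : ¬ s ⊆ R10 ↔ ∃ v ∈ s, v ∈ K3 := by
  rw [not_subset]
  constructor
  · rintro ⟨v, h1, h2⟩
    exact ⟨v, h1, notMem_R10.1 h2⟩
  · rintro ⟨v, h1, h2⟩
    exact ⟨v, h1, notMem_R10.2 h2⟩

/-- the blocks meeting `K` -/
def KB (B : Finset (Finset (Fin 13))) : Finset (Finset (Fin 13)) := B.filter fun b => ¬ b ⊆ R10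

theorem KB_subset (B : Finset (Finset (Fin 13))) : KB B ⊆ B := filter_subset _ _

theorem mem_KB {B : Finset (Finset (Fin 13))} {b : Finset (Fin 13)} :
    b ∈ KB B ↔ b ∈ B ∧ ¬ b ⊆ R10 := by
  unfold KB
  rw [mem_filter]

/-- number of links of `K` containing `q` -/
def lk (B : Finset (Finset (Fin 13))) (q : Finset (Fin 13)) : ℕ :=
  (if q ∈ link B 12 then 1 else 0) + (if q ∈ link B 11 then 1 else 0) +
    (if q ∈ link B 10 then 1 else 0)

theorem card_filter_K3 (P : Fin 13 → Prop) [DecidablePred P] :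
    (K3.filter P).card = (if P 12 then 1 else 0) + (if P 11 then 1 else 0) +
      (if P 10 then 1 else 0) := by
  unfold K3
  rw [card_filter, sum_insert (by decide), sum_insert (by decide), sum_singleton, add_assoc]

theorem disjoint_K3 {q : Finset (Fin 13)} (hq : q ⊆ R10) : Disjoint K3 q := by
  rw [disjoint_left]
  intro v h1 h2
  exact notMem_R10.2 h1 (hq h2)

/-- QUADS OUTSIDE `K`: the known blocks are counted by the three links -/
theorem cnt_KB {B : Finset (Finset (Fin 13))} (hB : ∀ b ∈ B, b.card = 5) {q : Finset (Fin 13)}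
    (hq : q.card = 4) (hqR : q ⊆ R10) : cnt (KB B) q = lk B q := by
  unfold lk
  rw [← card_filter_K3 (fun k => q ∈ link B k)]
  unfold cnt
  symm
  refine card_bij (fun k _ => insert k q) ?_ ?_ ?_
  · intro k hk
    rw [mem_filter] at hk ⊢
    have h1 := mem_link.1 hk.2
    refine ⟨mem_KB.2 ⟨h1.2, not_subset_R10.2 ⟨k, mem_insert_self k q, hk.1⟩⟩, subset_insert k q⟩
  · intro x hx y hy hxy
    rw [mem_filter] at hx hy
    have h1 : x ∈ insert y q := by
      have : x ∈ insert x q := mem_insert_self x q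
      rwa [hxy] at this
    rcases mem_insert.1 h1 with h2 | h2
    · exact h2
    · exact absurd h2 (disjoint_left.1 (disjoint_K3 hqR) hx.1)
  · intro b hb
    rw [mem_filter, mem_KB] at hb
    obtain ⟨⟨hbB, hbK⟩, hqb⟩ := hb
    obtain ⟨k, hk, hkK⟩ := not_subset_R10.1 hbK
    have hkq : k ∉ q := fun h => notMem_R10.2 hkK (hqR h)
    have h1 : insert k q = b := by
      refine eq_of_subset_of_card_le (insert_subset hk hqb) ?_
      rw [hB b hbB, card_insert_of_notMem hkq, hq]
    exact ⟨k, mem_filter.2 ⟨hkK, mem_link.2 ⟨hkq, h1 ▸ hbB⟩⟩, h1⟩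

/-- quads meeting `K`: all blocks are known -/
theorem cnt_KB_meet (B : Finset (Finset (Fin 13))) {s : Finset (Fin 13)} (hs : ¬ s ⊆ R10) :
    cnt (KB B) s = cnt B s := by
  unfold cnt
  congr 1
  ext b
  rw [mem_filter, mem_filter, mem_KB]
  exact ⟨fun h => ⟨h.1.1, h.2⟩, fun h => ⟨⟨h.1, fun h1 => hs (h.2.trans h1)⟩, h.2⟩⟩

theorem ex_KB_meet (B : Finset (Finset (Fin 13))) {s : Finset (Fin 13)} (hs : ¬ s ⊆ R10) :
    ex (KB B) s = ex B s := by
  unfold ex
  rw [cnt_KB_meet B hs]

theorem ex_KB {B : Finset (Finset (Fin 13))} (hB : ∀ b ∈ B, b.card = 5) {q : Finset (Fin 13)}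
    (hq : q.card = 4) (hqR : q ⊆ R10) : ex (KB B) q = if 2 ≤ lk B q then 1 else 0 := by
  unfold ex
  rw [cnt_KB hB hq hqR]
  have h : lk B q ≤ 3 := by
    unfold lk
    split_ifs <;> omega
  split_ifs <;> omega

/-! ### the pair word -/

/-- excess of the quads through `s` meeting `{11, 12}` (helper33's `P1`) -/
def P12 (B : Finset (Finset (Fin 13))) (s : Finset (Fin 13)) : ℕ :=
  ∑ q ∈ quads.filter (fun q => s ⊆ q ∧ (12 ∈ q ∨ 11 ∈ q)), ex B q

/-- excess of the quads through `s` with exactly the point 10 of `K` -/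
def Pz (B : Finset (Finset (Fin 13))) (s : Finset (Fin 13)) : ℕ :=
  ∑ q ∈ quads.filter (fun q => s ⊆ q ∧ 10 ∈ q ∧ 12 ∉ q ∧ 11 ∉ q), ex B q

/-- number of the outside quads through `s` in at least two of the links -/
def bad2 (B : Finset (Finset (Fin 13))) (s : Finset (Fin 13)) : ℕ :=
  (quads.filter (fun q => s ⊆ q ∧ q ⊆ R10 ∧ 2 ≤ lk B q)).card

/-- THE PAIR WORD of the known blocks -/
theorem Lam_KB {B : Finset (Finset (Fin 13))} (hB : ∀ b ∈ B, b.card = 5) (s : Finset (Fin 13)) :
    Lam (KB B) s = P12 B s + Pz B s + bad2 B s := by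
  unfold Lam LamW P12 Pz bad2
  rw [sum_filter, sum_filter, sum_filter, card_filter, ← sum_add_distrib, ← sum_add_distrib]
  refine sum_congr rfl fun q hq => ?_
  have hq4 := mem_quads.1 hq
  by_cases hs : s ⊆ q
  · rw [if_pos hs]
    by_cases hR : q ⊆ R10
    · have h12 : (12 : Fin 13) ∉ q := fun h => absurd (mem_R10.1 (hR h)) (by decide)
      have h11 : (11 : Fin 13) ∉ q := fun h => absurd (mem_R10.1 (hR h)) (by decide)
      have h10 : (10 : Fin 13) ∉ q := fun h => absurd (mem_R10.1 (hR h)) (by decide)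
      rw [if_neg (fun h => h.2.elim h12 h11), if_neg (fun h => h10 h.2.1), ex_KB hB hq4 hR,
        zero_add, zero_add]
      by_cases h2 : 2 ≤ lk B q
      · rw [if_pos h2, if_pos ⟨hs, hR, h2⟩]
      · rw [if_neg h2, if_neg fun h => h2 h.2.2]
    · rw [ex_KB_meet B hR, if_neg (fun h : s ⊆ q ∧ q ⊆ R10 ∧ 2 ≤ lk B q => hR h.2.1), add_zero]
      by_cases h1 : 12 ∈ q ∨ 11 ∈ q
      · rw [if_pos ⟨hs, h1⟩, if_neg (fun h => h1.elim h.2.2.1 h.2.2.2), add_zero]
      · rw [if_neg (fun h => h1 h.2), zero_add]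
        obtain ⟨v, hv, hvK⟩ := not_subset_R10.1 hR
        rw [if_pos]
        rw [not_or] at h1
        rcases mem_K3'.1 hvK with h | h | h
        · exact absurd (h ▸ hv) h1.1
        · exact absurd (h ▸ hv) h1.2
        · exact ⟨hs, h ▸ hv, h1.1, h1.2⟩
  · rw [if_neg hs, if_neg fun h => hs h.1, if_neg fun h => hs h.1, if_neg fun h => hs h.1]
    rfl

/-! ### linear form of the part through the point 10 -/

/-- the triples `t` of outside points with `t ∪ {10, k}` in `B` -/
def TK (B : Finset (Finset (Fin 13))) (k : Fin 13) : Finset (Finset (Fin 13)) :=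
  (link (link B 10) k).filter fun t => t ⊆ R10

/-- the quads of the link of 10 in the outside -/
def RZ (B : Finset (Finset (Fin 13))) : Finset (Finset (Fin 13)) :=
  (link B 10).filter fun q => q ⊆ R10

theorem Pz_eq {B : Finset (Finset (Fin 13))} {s : Finset (Fin 13)} (hs : s.card = 2)
    (hsR : s ⊆ R10) : Pz B s = ∑ w ∈ R10 \ s, ex B (insert w (insert 10 s)) := by
  have h10 : (10 : Fin 13) ∉ s := fun h => absurd (mem_R10.1 (hsR h)) (by decide)
  unfold Pz
  refine (sum_bij (fun w _ => insert w (insert 10 s)) ?_ ?_ ?_ ?_).symm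
  · intro w hw
    rw [mem_sdiff, mem_R10] at hw
    have hw10 : w ≠ 10 := by
      rintro rfl
      exact absurd hw.1 (by decide)
    have hw1 : w ∉ insert 10 s := fun h => (mem_insert.1 h).elim hw10 hw.2
    rw [mem_filter, mem_quads, card_insert_of_notMem hw1, card_insert_of_notMem h10, hs]
    refine ⟨rfl, (subset_insert _ _).trans (subset_insert _ _),
      mem_insert_of_mem (mem_insert_self _ _), ?_, ?_⟩
    · intro h
      rcases mem_insert.1 h with h | h
      · rw [← h] at hw
        exact absurd hw.1 (by decide)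
      · rcases mem_insert.1 h with h | h
        · exact absurd h (by decide)
        · exact absurd (mem_R10.1 (hsR h)) (by decide)
    · intro h
      rcases mem_insert.1 h with h | h
      · rw [← h] at hw
        exact absurd hw.1 (by decide)
      · rcases mem_insert.1 h with h | h
        · exact absurd h (by decide)
        · exact absurd (mem_R10.1 (hsR h)) (by decide)
  · intro a ha b hb hab
    rw [mem_sdiff, mem_R10] at ha hb
    have ha10 : a ≠ 10 := by
      rintro rfl
      exact absurd ha.1 (by decide)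
    have h1 : a ∈ insert b (insert 10 s) := hab ▸ mem_insert_self a _
    rcases mem_insert.1 h1 with h | h
    · exact h
    · exact absurd h (fun h => (mem_insert.1 h).elim ha10 ha.2)
  · intro q hq
    rw [mem_filter, mem_quads] at hq
    obtain ⟨hq4, hsq, h10q, h12q, h11q⟩ := hq
    have h3 : insert 10 s ⊆ q := insert_subset h10q hsq
    have h4 : (q \ insert 10 s).card = 1 := by
      rw [card_sdiff_of_subset h3, card_insert_of_notMem h10, hs, hq4]
    obtain ⟨w, hw⟩ := card_eq_one.1 h4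
    have hw1 : w ∈ q \ insert 10 s := hw ▸ mem_singleton_self w
    rw [mem_sdiff] at hw1
    have hwR : w ∈ R10 := by
      rw [← notMem_K3, mem_K3']
      rintro (h | h | h)
      · exact h12q (h ▸ hw1.1)
      · exact h11q (h ▸ hw1.1)
      · exact hw1.2 (h ▸ mem_insert_self _ _)
    refine ⟨w, mem_sdiff.2 ⟨hwR, fun h => hw1.2 (mem_insert_of_mem h)⟩, ?_⟩
    rw [insert_eq, ← hw, sdiff_union_of_subset h3]
  · intro w _
    rfl

theorem card_R10_sdiff {s : Finset (Fin 13)} (hsR : s ⊆ R10) (hs : s.card = 2) :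
    (R10 \ s).card = 8 := by
  rw [card_sdiff_of_subset hsR, hs]
  decide

/-- number of the outside points of a block through `10` and `s`, without `s` -/
theorem card_block {b s : Finset (Fin 13)} (hb : b.card = 5) (hs : s.card = 2) (hsR : s ⊆ R10)
    (h10 : 10 ∈ b) (hsb : s ⊆ b) : (b ∩ (R10 \ s)).card + ((if 11 ∈ b then 1 else 0) +
      (if 12 ∈ b then 1 else 0)) = 2 := by
  have h1 : b = (b ∩ (R10 \ s)) ∪ (s ∪ K3.filter (fun k => k ∈ b)) := by
    ext v
    simp only [mem_union, mem_inter, mem_sdiff, mem_filter]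
    constructor
    · intro hv
      by_cases h2 : v ∈ s
      · exact Or.inr (Or.inl h2)
      · by_cases h3 : v ∈ R10
        · exact Or.inl ⟨hv, h3, h2⟩
        · exact Or.inr (Or.inr ⟨notMem_R10.1 h3, hv⟩)
    · rintro (h | h | h)
      · exact h.1
      · exact hsb h
      · exact h.2
  have h2 : (K3.filter (fun k => k ∈ b)).card = (if (12 : Fin 13) ∈ b then 1 else 0) +
      (if (11 : Fin 13) ∈ b then 1 else 0) + 1 := by
    rw [card_filter_K3 (fun k => k ∈ b), if_pos h10]
  have h3 : Disjoint s (K3.filter (fun k => k ∈ b)) := by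
    rw [disjoint_left]
    intro v hv h4
    exact notMem_R10.2 (mem_filter.1 h4).1 (hsR hv)
  have h4 : Disjoint (b ∩ (R10 \ s)) (s ∪ K3.filter (fun k => k ∈ b)) := by
    rw [disjoint_left]
    intro v hv h5
    rw [mem_inter, mem_sdiff] at hv
    rcases mem_union.1 h5 with h5 | h5
    · exact hv.2.2 h5
    · exact notMem_R10.2 (mem_filter.1 h5).1 hv.2.1
  have h5 := congrArg Finset.card h1
  rw [card_union_of_disjoint h4, card_union_of_disjoint h3, hb, hs, h2] at h5
  omega

/-- membership in the blocks through `10` and `s`, by type -/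
theorem cnt_RZ (B : Finset (Finset (Fin 13))) {s : Finset (Fin 13)} (hsR : s ⊆ R10) :
    cnt (RZ B) s = (B.filter fun b => (10 ∈ b ∧ s ⊆ b) ∧ 11 ∉ b ∧ 12 ∉ b).card := by
  have h10 : (10 : Fin 13) ∉ s := fun h => absurd (mem_R10.1 (hsR h)) (by decide)
  unfold cnt RZ
  refine card_bij' (fun q _ => insert 10 q) (fun b _ => b.erase 10) ?_ ?_ ?_ ?_
  · intro q hq
    rw [mem_filter, mem_filter, mem_link] at hq
    obtain ⟨⟨⟨_, h2⟩, h3⟩, h4⟩ := hq
    rw [mem_filter]
    refine ⟨h2, ⟨mem_insert_self _ _, h4.trans (subset_insert _ _)⟩, ?_, ?_⟩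
    · intro h
      rcases mem_insert.1 h with h | h
      · exact absurd h (by decide)
      · exact absurd (mem_R10.1 (h3 h)) (by decide)
    · intro h
      rcases mem_insert.1 h with h | h
      · exact absurd h (by decide)
      · exact absurd (mem_R10.1 (h3 h)) (by decide)
  · intro b hb
    rw [mem_filter] at hb
    obtain ⟨h1, ⟨h2, h3⟩, h4, h5⟩ := hb
    rw [mem_filter, mem_filter, mem_link, insert_erase h2]
    refine ⟨⟨⟨notMem_erase _ _, h1⟩, ?_⟩, ?_⟩
    · intro v hv
      rw [mem_erase] at hv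
      rw [← notMem_K3, mem_K3']
      rintro (h | h | h)
      · exact h5 (h ▸ hv.2)
      · exact h4 (h ▸ hv.2)
      · exact hv.1 h
    · exact subset_erase.2 ⟨h3, h10⟩
  · intro q hq
    rw [mem_filter, mem_filter, mem_link] at hq
    exact erase_insert hq.1.1.1
  · intro b hb
    rw [mem_filter] at hb
    exact insert_erase hb.2.1.1

theorem cnt_TK (B : Finset (Finset (Fin 13))) {s : Finset (Fin 13)} (hsR : s ⊆ R10)
    {k k' : Fin 13} (hk : k ∈ K3) (hk' : k' ∈ K3) (hk10 : k ≠ 10) (hk10' : k' ≠ 10)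
    (hkk : k ≠ k') :
    cnt (TK B k) s = (B.filter fun b => (10 ∈ b ∧ s ⊆ b) ∧ k ∈ b ∧ k' ∉ b).card := by
  have hall : ∀ v ∈ K3, v = 10 ∨ v = k ∨ v = k' := by
    revert k k'
    decide
  have hR : ∀ v ∈ K3, ∀ t : Finset (Fin 13), t ⊆ R10 → v ∉ t := fun v hv t ht h =>
    notMem_R10.2 hv (ht h)
  have h10K : (10 : Fin 13) ∈ K3 := by decide
  unfold cnt TK
  refine card_bij' (fun t _ => insert 10 (insert k t)) (fun b _ => (b.erase 10).erase k) ?_ ?_ ?_ ?_
  · intro t ht
    rw [mem_filter, mem_filter, mem_link, mem_link] at ht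
    obtain ⟨⟨⟨_, _, h2⟩, h3⟩, h4⟩ := ht
    rw [mem_filter]
    refine ⟨h2, ⟨mem_insert_self _ _, h4.trans ((subset_insert _ _).trans (subset_insert _ _))⟩,
      mem_insert_of_mem (mem_insert_self _ _), ?_⟩
    intro h
    rcases mem_insert.1 h with h | h
    · exact hk10' h
    · rcases mem_insert.1 h with h | h
      · exact hkk h.symm
      · exact hR k' hk' t h3 h
  · intro b hb
    rw [mem_filter] at hb
    obtain ⟨h1, ⟨h2, h3⟩, h4, h5⟩ := hb
    have h6 : k ∈ b.erase 10 := mem_erase.2 ⟨hk10, h4⟩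
    rw [mem_filter, mem_filter, mem_link, mem_link, insert_erase h6, insert_erase h2]
    refine ⟨⟨⟨notMem_erase _ _, notMem_erase _ _, h1⟩, ?_⟩, ?_⟩
    · intro v hv
      rw [mem_erase, mem_erase] at hv
      rw [← notMem_K3]
      intro hvK
      rcases hall v hvK with h | h | h
      · exact hv.2.1 h
      · exact hv.1 h
      · exact h5 (h ▸ hv.2.2)
    · exact subset_erase.2 ⟨subset_erase.2 ⟨h3, hR 10 h10K s hsR⟩, hR k hk s hsR⟩
  · intro t ht
    rw [mem_filter, mem_filter, mem_link, mem_link] at ht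
    obtain ⟨⟨⟨h0, h1, _⟩, _⟩, _⟩ := ht
    rw [erase_insert h1, erase_insert h0]
  · intro b hb
    rw [mem_filter] at hb
    obtain ⟨_, ⟨h2, _⟩, h4, _⟩ := hb
    have h6 : k ∈ b.erase 10 := mem_erase.2 ⟨hk10, h4⟩
    rw [insert_erase h6, insert_erase h2]

/-- THE PART THROUGH THE POINT 10 IS LINEAR -/
theorem two_Pz {B : Finset (Finset (Fin 13))} (hB : OddCover B) {s : Finset (Fin 13)}
    (hs : s.card = 2) (hsR : s ⊆ R10) :
    2 * Pz B s + 8 = 2 * cnt (RZ B) s + cnt (TK B 11) s + cnt (TK B 12) s := by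
  have h10 : (10 : Fin 13) ∉ s := fun h => absurd (mem_R10.1 (hsR h)) (by decide)
  have h1 : 2 * Pz B s + 8 = ∑ w ∈ R10 \ s, cnt B (insert w (insert 10 s)) := by
    rw [Pz_eq hs hsR, mul_sum, ← card_R10_sdiff hsR hs, card_eq_sum_ones, ← sum_add_distrib]
    refine sum_congr rfl fun w hw => ?_
    rw [mem_sdiff, mem_R10] at hw
    have hw10 : w ≠ 10 := by
      rintro rfl
      exact absurd hw.1 (by decide)
    have hw1 : w ∉ insert 10 s := fun h => (mem_insert.1 h).elim hw10 hw.2
    have h4 : (insert w (insert 10 s)).card = 4 := by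
      rw [card_insert_of_notMem hw1, card_insert_of_notMem h10, hs]
    rw [cnt_quad hB h4]
    ring
  have h2 : ∑ w ∈ R10 \ s, cnt B (insert w (insert 10 s)) =
      ∑ b ∈ B.filter (fun b => 10 ∈ b ∧ s ⊆ b), (b ∩ (R10 \ s)).card := by
    unfold cnt
    have h3 : ∀ w, (B.filter fun b => insert w (insert 10 s) ⊆ b).card =
        ∑ b ∈ B.filter (fun b => 10 ∈ b ∧ s ⊆ b), if w ∈ b then 1 else 0 := by
      intro w
      rw [card_filter, sum_filter]
      refine sum_congr rfl fun b _ => ?_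
      by_cases h4 : 10 ∈ b ∧ s ⊆ b
      · rw [if_pos h4]
        refine if_congr ?_ rfl rfl
        rw [insert_subset_iff, insert_subset_iff]
        exact ⟨fun h => h.1, fun h => ⟨h, h4⟩⟩
      · rw [if_neg h4, if_neg]
        rw [insert_subset_iff, insert_subset_iff]
        exact fun h => h4 h.2
    rw [sum_congr rfl fun w _ => h3 w, sum_comm]
    refine sum_congr rfl fun b _ => ?_
    rw [← card_filter, inter_comm]
    rfl
  have h3 : ∀ b ∈ B.filter (fun b => 10 ∈ b ∧ s ⊆ b), (b ∩ (R10 \ s)).card =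
      2 * (if 11 ∉ b ∧ 12 ∉ b then 1 else 0) + (if 11 ∈ b ∧ 12 ∉ b then 1 else 0) +
      (if 12 ∈ b ∧ 11 ∉ b then 1 else 0) := by
    intro b hb
    rw [mem_filter] at hb
    have h4 := card_block (hB.1 b hb.1) hs hsR hb.2.1 hb.2.2
    by_cases h11 : (11 : Fin 13) ∈ b <;> by_cases h12 : (12 : Fin 13) ∈ b <;>
      simp only [h11, h12, not_true_eq_false, not_false_eq_true, and_true, and_false,
        if_true, if_false] at h4 ⊢ <;> omega
  rw [h1, h2, sum_congr rfl h3, sum_add_distrib, sum_add_distrib, ← mul_sum, cnt_RZ B hsR,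
    cnt_TK B hsR (k := 11) (k' := 12) (by decide) (by decide) (by decide) (by decide) (by decide),
    cnt_TK B hsR (k := 12) (k' := 11) (by decide) (by decide) (by decide) (by decide) (by decide)]
  have h5 : ∀ P : Finset (Fin 13) → Prop, [DecidablePred P] →
      (∑ b ∈ B.filter (fun b => 10 ∈ b ∧ s ⊆ b), if P b then 1 else 0) =
      (B.filter fun b => (10 ∈ b ∧ s ⊆ b) ∧ P b).card := by
    intro P _
    rw [← card_filter, filter_filter]
  rw [h5 (fun b => 11 ∉ b ∧ 12 ∉ b), h5 (fun b => 11 ∈ b ∧ 12 ∉ b),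
    h5 (fun b => 12 ∈ b ∧ 11 ∉ b)]

/-! ### at least two of three -/

/-- `a ∧ b` or `c` and `a xor b` -/
theorem two_of_three (B : Finset (Finset (Fin 13))) (q : Finset (Fin 13)) :
    (if 2 ≤ lk B q then 1 else 0) = (if q ∈ link B 12 ∧ q ∈ link B 11 then 1 else 0) +
      (if q ∈ link B 10 ∧ ¬ (q ∈ link B 12 ↔ q ∈ link B 11) then 1 else 0) := by
  unfold lk
  by_cases h1 : q ∈ link B 12 <;> by_cases h2 : q ∈ link B 11 <;> by_cases h3 : q ∈ link B 10 <;>
    simp [h1, h2, h3]

theorem bad2_eq (B : Finset (Finset (Fin 13))) (s : Finset (Fin 13)) :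
    bad2 B s = (quads.filter (fun q => s ⊆ q ∧ q ⊆ R10 ∧ q ∈ link B 12 ∧ q ∈ link B 11)).card +
      (quads.filter (fun q => s ⊆ q ∧ q ⊆ R10 ∧ q ∈ link B 10 ∧
        ¬ (q ∈ link B 12 ↔ q ∈ link B 11))).card := by
  unfold bad2
  rw [card_filter, card_filter, card_filter, ← sum_add_distrib]
  refine sum_congr rfl fun q _ => ?_
  have h := two_of_three B q
  by_cases h1 : s ⊆ q
  · by_cases h2 : q ⊆ R10
    · simp only [h1, h2, true_and]
      exact h
    · rw [if_neg fun h => h2 h.2.1, if_neg fun h => h2 h.2.1, if_neg fun h => h2 h.2.1]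
  · rw [if_neg fun h => h1 h.1, if_neg fun h => h1 h.1, if_neg fun h => h1 h.1]

/-! ### the bound for the kill test -/

theorem ex_KB_le (B : Finset (Finset (Fin 13))) (s : Finset (Fin 13)) : ex (KB B) s ≤ ex B s := by
  unfold ex cnt
  exact Nat.div_le_div_right (card_le_card (filter_subset_filter _ (KB_subset B)))

theorem Lam_KB_le (B : Finset (Finset (Fin 13))) (s : Finset (Fin 13)) : Lam (KB B) s ≤ Lam B s := by
  unfold Lam LamW
  exact sum_le_sum fun q _ => ex_KB_le B q

/-- every lower bound of `Lam B {z, w}` gives a bound of `mm` -/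
theorem mm_ge_of_Lam {B : Finset (Finset (Fin 13))} (hB : OddCover B) {z w : Fin 13}
    (hzw : z ≠ w) {x : ℕ} (h : x ≤ Lam B {z, w}) : (x + 1) / 3 ≤ mm B z w := by
  have h1 := mm_ge hB (g := ex B) (fun _ _ => le_rfl) hzw
  unfold Lam at h
  omega

end Pool.Agent.Helper28.TY
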