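import Pool.Agent.Helper28.TY.CtS
import Pool.Agent.Helper97.CV.KilR

/-!
MP_8ee768_co, project TH-Y': the callback of `chunkRun` with helper97's kill test in relu form
(`kilR`, even lower bounds); for odd bounds the plain test is used, so the theorem is the same.
-/

set_option autoImplicit false
set_option exponentiation.threshold 20000

namespace Pool.Agent.Helper28.TY

open Finset
open Pool.Agent.Helper89.CV (OddCover ofMask)
open Pool.Agent.Helper97.CV Pool.Agent.Helper79.CV
open Pool.Agent.Helper97.CV.Kill10 (P1 P2 onS)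
open Pool.Agent.Helper97.CV.KilR (kilR kilR_ok)
open Pool.Agent.Helper63.SIMD
open Pool.Agent.Helper81.TY (bw bw_congr bw_land li fs pc xw pw aw k1_1 k1_1_eq lay bw_land_lay
  ofMask_subset_R10 k128_1 k128_1_eq chunkRun chunk_sound)
open Pool.Agent.Helper33.TY (PW)
open Pool.Agent.Helper55.TY.M10 (run cB kil KillOK force force_eq)

/-- the continuation of a lane that is not killed, relu form -/
def ctR (T X f a L c : ℕ) : ℕ :=
  @Nat.rec (fun _ => ℕ)
    (force c (Nat.sub T (Nat.mod L 255)) fun t => force c (Nat.add a (Nat.sub k128_1 L)) fun y =>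
      run (kilR t y) 60 c X cB f)
    (fun _ _ => ctS T X f a L c) (Nat.land L k1_1)

theorem natrec_at_zero {α : Type} (x : α) (y : ℕ → α → α) {n : ℕ} (h : n = 0) :
    @Nat.rec (fun _ => α) x y n = x := by
  subst h
  rfl

theorem natrec_const {α : Type} (x y : α) {n : ℕ} (h : n ≠ 0) :
    @Nat.rec (fun _ => α) x (fun _ _ => y) n = y := by
  cases n with
  | zero => exact absurd rfl h
  | succ n => rfl

theorem ctR_even {T X f a L c : ℕ} (h : Nat.land L k1_1 = 0) : ctR T X f a L c =
    run (kilR (Nat.sub T (Nat.mod L 255)) (Nat.add a (Nat.sub k128_1 L))) 60 c X cB f := by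
  refine (natrec_at_zero _ _ h).trans ?_
  rw [force_eq, force_eq]

theorem ctR_odd {T X f a L c : ℕ} (h : Nat.land L k1_1 ≠ 0) :
    ctR T X f a L c = ctS T X f a L c :=
  natrec_const _ _ h

theorem onS_point {m : ℕ} (hm : m < 1024) : m ∈ P1 ↔ (ofMask m).card = 1 := by
  unfold P1
  rw [List.mem_toFinset, mem_L (by norm_num)]
  exact ⟨fun h => h.2, fun h => ⟨by norm_num; exact hm, h⟩⟩

theorem ofMask_two_pow' (z : Fin 13) : ofMask (2 ^ z.val) = {z} := by
  ext i
  rw [mem_ofMask, mem_singleton, Nat.testBit_two_pow, decide_eq_true_eq, Fin.ext_iff]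
  exact eq_comm

theorem two_pow_lt_1024 {z : Fin 13} (hz : z.val < 10) : 2 ^ z.val < 1024 :=
  lt_of_le_of_lt (Nat.pow_le_pow_right (by norm_num) (by omega : z.val ≤ 9)) (by norm_num)

variable {B : Finset (Finset (Fin 13))}

/-- the words of the kill test `kilR` from functions on sets -/
theorem kilR_words (hB : OddCover B) (h157 : B.card ≤ 157) {T : ℕ}
    (hT : 88 < T + (MM B 10 + MM B 11 + MM B 12)) {a l : Finset (Fin 13) → ℕ}
    (ha : ∀ s ⊆ R10, a s ≤ 97)
    (ha1 : ∀ u : Fin 13, u.val < 10 → a {u} ≤ mm B 12 u + mm B 11 u + mm B 10 u + 1)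
    (hl : ∀ s ⊆ R10, l s ≤ 127) (hl0 : ∀ s ⊆ R10, s.card ≠ 1 → l s = 0)
    (hl1 : ∀ u : Fin 13, u.val < 10 → l {u} ≤ MM B u)
    (hev : ∀ u : Fin 13, u.val < 10 → l {u} % 2 = 0) :
    KillOK (kilR (Nat.sub T (Nat.mod (bw l) 255)) (Nat.add (bw a) (Nat.sub k128_1 (bw l)))) B := by
  have e1 : bw a = pk 8 1024 (fun r => if r < 1024 then a (ofMask r) else 0) :=
    pk_congr fun r hr => (if_pos hr).symm
  have e2 : bw l = pk 8 1024 (fun r => if r < 1024 then l (ofMask r) else 0) :=
    pk_congr fun r hr => (if_pos hr).symm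
  have e3 : Nat.sub k128_1 (bw l) =
      pk 8 1024 (fun r => onS P1 128 r - (if r < 1024 then l (ofMask r) else 0)) := by
    show k128_1 - bw l = _
    have h1 : k128_1 = pk 8 1024 (onS P1 128) := by
      rw [k128_1_eq]
      refine pk_congr fun r hr => ?_
      show (if (ofMask r).card = 1 then 128 else 0) = onS P1 128 r
      unfold onS
      exact if_congr (onS_point hr).symm rfl rfl
    rw [h1, e2]
    refine pk_sub fun r hr => ?_
    show (if r < 1024 then l (ofMask r) else 0) ≤ onS P1 128 r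
    rw [if_pos hr]
    unfold onS
    have hR := ofMask_subset_R10 hr
    by_cases h : r ∈ P1
    · rw [if_pos h]
      exact (hl _ hR).trans (by norm_num)
    · rw [if_neg h, hl0 _ hR fun h2 => h ((onS_point hr).2 h2)]
  have hsum : Nat.mod (bw l) 255 ≤
      ∑ z ∈ range 10, (if 2 ^ z < 1024 then l (ofMask (2 ^ z)) else 0) := by
    have h1 := Pool.Agent.Helper97.CV.Kill10.pk_mod255 1024
      (fun r => if r < 1024 then l (ofMask r) else 0)
    rw [← e2] at h1
    refine h1.trans ?_
    rw [← Pool.Agent.Helper97.CV.Kill10.sum_P1 fun r => if r < 1024 then l (ofMask r) else 0]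
    refine le_of_eq (sum_subset (fun r hr =>
      mem_range.2 (Pool.Agent.Helper97.CV.Kill10.P1_lt hr)) fun r hr1 hr => ?_).symm
    have h2 := mem_range.1 hr1
    show (if r < 1024 then l (ofMask r) else 0) = 0
    rw [if_pos h2]
    exact hl0 _ (ofMask_subset_R10 h2) fun h => hr ((onS_point h2).2 h)
  rw [e3, e1]
  refine kilR_ok hB h157 (a := fun r => if r < 1024 then a (ofMask r) else 0)
    (l := fun r => if r < 1024 then l (ofMask r) else 0) ?_ ?_ ?_ ?_ ?_ ?_
  · intro r
    by_cases h1 : r < 1024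
    · show (if r < 1024 then a (ofMask r) else 0) ≤ 97
      rw [if_pos h1]
      exact ha _ (ofMask_subset_R10 h1)
    · show (if r < 1024 then a (ofMask r) else 0) ≤ 97
      rw [if_neg h1]
      norm_num
  · intro r
    by_cases h1 : r < 1024
    · show (if r < 1024 then l (ofMask r) else 0) ≤ 127
      rw [if_pos h1]
      exact hl _ (ofMask_subset_R10 h1)
    · show (if r < 1024 then l (ofMask r) else 0) ≤ 127
      rw [if_neg h1]
      norm_num
  · intro z hz
    have hz' : (⟨z, by omega⟩ : Fin 13).val < 10 := hz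
    show (if 2 ^ z < 1024 then l (ofMask (2 ^ z)) else 0) % 2 = 0
    have h1 := two_pow_lt_1024 hz'
    have h2 := ofMask_two_pow' (⟨z, by omega⟩ : Fin 13)
    simp only at h1 h2
    rw [if_pos h1, h2]
    exact hev _ hz
  · intro z hz
    show (if 2 ^ z.val < 1024 then a (ofMask (2 ^ z.val)) else 0) ≤ _
    rw [if_pos (two_pow_lt_1024 hz), ofMask_two_pow']
    have h1 := ha1 z hz
    have h2 := mm_comm B z 10
    have h3 := mm_comm B z 11
    have h4 := mm_comm B z 12
    omega
  · intro z hz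
    show (if 2 ^ z.val < 1024 then l (ofMask (2 ^ z.val)) else 0) ≤ _
    rw [if_pos (two_pow_lt_1024 hz), ofMask_two_pow']
    exact hl1 z hz
  · show 88 < T - Nat.mod (bw l) 255 + _ + _
    omega

/-- THE CONTINUATION IS CORRECT (relu form): `hct` of `chunk_sound` -/
theorem ctR_zero (hB : OddCover B) (h157 : B.card ≤ 157) {T : ℕ}
    (hT : 88 < T + (MM B 10 + MM B 11 + MM B 12)) (l : Finset (Fin 13) → ℕ) (c : ℕ)
    (hl0 : ∀ s, s.card ≠ 1 → l s = 0) (hl8 : ∀ s, l s ≤ 8)
    (hl : ∀ u ∈ Pool.Agent.Helper81.TY.R10, l {u} ≤ MM B u) :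
    ctR T (bw (xw B)) (bw (pw B)) (bw (aw B)) (bw l) c = 0 := by
  by_cases h0 : Nat.land (bw l) k1_1 = 0
  · rw [ctR_even h0]
    refine ct_zero hB (kilR_words hB h157 hT (aw_le hB h157) ?_ ?_ ?_ ?_ ?_) 60 c
    · intro u _
      exact le_of_eq (aw_point u)
    · intro s _
      exact (hl8 s).trans (by norm_num)
    · intro s _ h
      exact hl0 s h
    · intro u hu
      exact hl u (Pool.Agent.Helper81.TY.mem_R10.2 hu)
    · intro u hu
      have h1 : bw l &&& k1_1 = 0 := h0
      have h2 : bw l &&& bw (fun s => if s.card = 1 then 1 else 0) = 0 := by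
        rw [k1_1_eq] at h1
        exact h1
      rw [bw_land (fun s => lt_of_le_of_lt (hl8 s) (by norm_num))
        (fun s => by split_ifs <;> norm_num)] at h2
      unfold bw pk at h2
      rw [sum_eq_zero_iff] at h2
      have h3 := h2 (2 ^ u.val) (mem_range.2 (two_pow_lt_1024 hu))
      beta_reduce at h3
      rw [ofMask_two_pow', if_pos (card_singleton u)] at h3
      have h4 : l {u} &&& 1 = 0 := by
        rcases Nat.mul_eq_zero.1 h3 with h | h
        · exact h
        · exact absurd h (Nat.two_pow_pos _).ne'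
      rwa [Nat.and_one_is_mod] at h4
  · rw [ctR_odd h0]
    exact ctS_zero hB h157 hT l c hl0 hl8 hl

/-- CHUNK + SEARCH, relu form -/
theorem chunk_deadR (hB : OddCover B) (h157 : B.card ≤ 157) {Q : ℕ} (hQ : PW B Q) {b : ℕ}
    (hb : b ≤ 8) (hlow : ∀ u : Fin 13, u.val < 10 → b ≤ MM B u)
    {nb : Bool} (hnb : nb = true → ∀ u : Fin 13, u.val < 10 → 1 ≤ mm B 10 u → 8 ≤ MM B u)
    {T : ℕ} (hT : 88 < T + (MM B 10 + MM B 11 + MM B 12)) {piece : ℕ → ℕ} {P N k : ℕ}
    (hk : k < N)
    (hlane : enc 10 4 (link B 10) = (piece (P + k / 64) >>> (210 * (k % 64))) % 2 ^ 210)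
    (c : ℕ) : chunkRun T b nb (ctR T) piece P N Q c = 0 :=
  chunk_sound hB h157 hQ hb (fun u hu => hlow u (mem_R10.1 hu))
    (fun h u hu => hnb h u (mem_R10.1 hu)) hT hk hlane
    (fun l c h1 h2 h3 => ctR_zero hB h157 hT l c h1 h2 h3) c

end Pool.Agent.Helper28.TY
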