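import Pool.Agent.Helper28.TY.PairEq
import Pool.Agent.Helper55.TY.M10

/-!
MP_8ee768_co, project TH-Y': from the words of helper81's lane program (all links of 10, 11, 12
known) to the start of helper55's search machine M10.

`run_dead`: any kill test with `KillOK`; `kil_dead`: the plain kill test with the words
`T`, `bw a`, `bw l`.
-/

set_option autoImplicit false
set_option exponentiation.threshold 20000

namespace Pool.Agent.Helper28.TY

open Finset
open Pool.Agent.Helper89.CV (OddCover ofMask)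
open Pool.Agent.Helper97.CV Pool.Agent.Helper79.CV
open Pool.Agent.Helper97.CV.Kill10 (P1 P2 onS)
open Pool.Agent.Helper63.SIMD
open Pool.Agent.Helper81.TY (bw bw_congr bw_land bw_xor li li_le ofMask_subset_R10 mk_lt_R10 lay
  k128_1 k128_1_eq bw_sub')
open Pool.Agent.Helper55.TY.M10 (run KillOK Dec B5 Q4 Rk cB kil kil_ok run_start)
open Pool.Agent.Helper55.TY (g g_eq_pk)

theorem lt13' {m : ℕ} (hm : m < 1024) : m < 2 ^ 13 := lt_of_lt_of_le hm (by norm_num)

/-- the known blocks in the two forms -/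
theorem Dec_B5 {B : Finset (Finset (Fin 13))} (hB : ∀ b ∈ B, b.card = 5) : Dec B B5 = KB B := by
  unfold Dec KB
  refine filter_congr fun b hb => ?_
  unfold B5
  rw [List.mem_toFinset, mem_L (by norm_num), ofMask_mk, not_iff_not]
  have h : mk b < 1024 ↔ b ⊆ R10 := mk_lt_R10
  rw [show (2 : ℕ) ^ 10 = 1024 by norm_num, h]
  exact ⟨fun h => h.1, fun h => ⟨h, hB b hb⟩⟩

/-- the masks of a link on the outside quads -/
theorem g_Rk (B : Finset (Finset (Fin 13))) (k : Fin 13) (hk : 10 ≤ k.val) :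
    g (Rk B k) = bw (fun s => if s.card = 4 then li B k s else 0) := by
  have h1 : ∀ r ∈ Rk B k, r < 1024 := by
    intro r hr
    exact Pool.Agent.Helper55.TY.M10.Q4_lt (mem_filter.1 hr).1
  rw [g_eq_pk h1]
  refine pk_congr fun m hm => ?_
  show (if m ∈ Rk B k then 1 else 0) = if (ofMask m).card = 4 then li B k (ofMask m) else 0
  have hR := ofMask_subset_R10 hm
  have hkm : k ∉ ofMask m := fun h => by
    have := Pool.Agent.Helper81.TY.mem_R10.1 (hR h)
    omega
  have hQ : m ∈ Q4 ↔ (ofMask m).card = 4 := by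
    unfold Q4
    rw [List.mem_toFinset, mem_L (by norm_num)]
    exact ⟨fun h => h.2, fun h => ⟨by norm_num; exact hm, h⟩⟩
  have hRk : m ∈ Rk B k ↔ (ofMask m).card = 4 ∧ insert k (ofMask m) ∈ B := by
    unfold Rk
    rw [mem_filter, hQ]
  unfold li
  by_cases h4 : (ofMask m).card = 4
  · rw [if_pos h4]
    refine if_congr ?_ rfl rfl
    rw [mem_link, hRk]
    exact ⟨fun h => ⟨hkm, h.2⟩, fun h => ⟨h4, h.2⟩⟩
  · rw [if_neg h4, if_neg fun h => h4 (hRk.1 h).1]

/-- the word of the parities at the start -/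
theorem start_word {B : Finset (Finset (Fin 13))} {x : Finset (Fin 13) → ℕ}
    (hx : ∀ s ⊆ R10, x s = if s.card = 4 then li B 12 s ^^^ li B 11 s ^^^ li B 10 s else 0) :
    bw x = g (Rk B 10) ^^^ g (Rk B 11) ^^^ g (Rk B 12) := by
  have hb : ∀ k : Fin 13, ∀ s : Finset (Fin 13), (if s.card = 4 then li B k s else 0) < 256 := by
    intro k s
    have := li_le B k s
    split_ifs <;> omega
  have hb2 : ∀ k k' : Fin 13, ∀ s : Finset (Fin 13),
      ((if s.card = 4 then li B k s else 0) ^^^ (if s.card = 4 then li B k' s else 0)) < 256 := by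
    intro k k' s
    exact Nat.xor_lt_two_pow (n := 8) (hb k s) (hb k' s)
  rw [g_Rk B 10 (by decide), g_Rk B 11 (by decide), g_Rk B 12 (by decide),
    bw_xor (fun s _ => hb 10 s) (fun s _ => hb 11 s),
    bw_xor (fun s _ => hb2 10 11 s) (fun s _ => hb 12 s)]
  refine bw_congr fun s hs => ?_
  rw [hx s hs]
  by_cases h : s.card = 4
  · simp only [if_pos h]
    rw [Nat.xor_comm (li B 12 s), Nat.xor_comm (li B 11 s ^^^ li B 12 s), ← Nat.xor_assoc]
  · simp only [if_neg h]
    rfl

/-- THE SEARCH FROM THE LANE WORDS, any kill test -/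
theorem run_dead {B : Finset (Finset (Fin 13))} (hB : OddCover B) {K : ℕ → Bool}
    (hK : KillOK K B) {x f : Finset (Fin 13) → ℕ}
    (hx : ∀ s ⊆ R10, x s = if s.card = 4 then li B 12 s ^^^ li B 11 s ^^^ li B 10 s else 0)
    (hf2 : ∀ s ⊆ R10, s.card = 2 → f s ≤ Lam (KB B) s)
    (hf0 : ∀ s ⊆ R10, s.card ≠ 2 → f s = 0) (d c : ℕ) :
    run K d c (bw x) cB (bw f) = 0 := by
  rw [start_word hx]
  have e : bw f = pk 8 1024 (fun r => if r < 1024 then f (ofMask r) else 0) :=
    pk_congr fun r hr => (if_pos hr).symm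
  rw [e]
  have hP2 : ∀ r, r < 1024 → (r ∈ P2 ↔ (ofMask r).card = 2) := by
    intro r hr
    unfold P2
    rw [List.mem_toFinset, mem_L (by norm_num)]
    exact ⟨fun h => h.2, fun h => ⟨by norm_num; exact hr, h⟩⟩
  refine run_start hB hK ?_ ?_ d c
  · intro r hr
    have h1 := Pool.Agent.Helper97.CV.Kill10.P2_lt hr
    rw [if_pos h1, Dec_B5 hB.1]
    exact hf2 _ (ofMask_subset_R10 h1) ((hP2 r h1).1 hr)
  · intro r hr
    by_cases h1 : r < 1024
    · rw [if_pos h1]
      exact hf0 _ (ofMask_subset_R10 h1) fun h => hr ((hP2 r h1).2 h)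
    · rw [if_neg h1]

/-- THE SEARCH FROM THE LANE WORDS, plain kill test: `bw a` row offsets plus one, `bw l` bounds -/
theorem kil_dead {B : Finset (Finset (Fin 13))} (hB : OddCover B) (h157 : B.card ≤ 157) {T : ℕ}
    (hT : 88 < T + (MM B 10 + MM B 11 + MM B 12)) {x f a l : Finset (Fin 13) → ℕ}
    (hx : ∀ s ⊆ R10, x s = if s.card = 4 then li B 12 s ^^^ li B 11 s ^^^ li B 10 s else 0)
    (hf2 : ∀ s ⊆ R10, s.card = 2 → f s ≤ Lam (KB B) s)
    (hf0 : ∀ s ⊆ R10, s.card ≠ 2 → f s = 0)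
    (ha : ∀ s ⊆ R10, a s ≤ 97)
    (ha1 : ∀ u : Fin 13, u.val < 10 → a {u} ≤ mm B 12 u + mm B 11 u + mm B 10 u + 1)
    (hl : ∀ s ⊆ R10, l s ≤ 127) (hl0 : ∀ s ⊆ R10, s.card ≠ 1 → l s = 0)
    (hl1 : ∀ u : Fin 13, u.val < 10 → l {u} ≤ MM B u) (d c : ℕ) :
    run (kil T (bw a) (Nat.sub k128_1 (bw l)) (bw l)) d c (bw x) cB (bw f) = 0 := by
  refine run_dead hB ?_ hx hf2 hf0 d c
  have hP1 : ∀ r, r < 1024 → (r ∈ P1 ↔ (ofMask r).card = 1) := by
    intro r hr
    unfold P1
    rw [List.mem_toFinset, mem_L (by norm_num)]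
    exact ⟨fun h => h.2, fun h => ⟨by norm_num; exact hr, h⟩⟩
  have hP1lt : ∀ r ∈ P1, r < 1024 := fun r hr => Pool.Agent.Helper97.CV.Kill10.P1_lt hr
  have e1 : bw a = pk 8 1024 (fun r => if r < 1024 then a (ofMask r) else 0) :=
    pk_congr fun r hr => (if_pos hr).symm
  have e2 : bw l = pk 8 1024 (fun r => if r < 1024 then l (ofMask r) else 0) :=
    pk_congr fun r hr => (if_pos hr).symm
  have e3 : Nat.sub k128_1 (bw l) =
      pk 8 1024 (fun r => onS P1 128 r - (if r < 1024 then l (ofMask r) else 0)) := by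
    show k128_1 - bw l = _
    have h1 : k128_1 = pk 8 1024 (onS P1 128) := by
      rw [k128_1_eq]
      refine pk_congr fun r hr => ?_
      show (if (ofMask r).card = 1 then 128 else 0) = onS P1 128 r
      unfold onS
      exact if_congr (hP1 r hr).symm rfl rfl
    rw [h1, e2]
    refine pk_sub fun r hr => ?_
    show (if r < 1024 then l (ofMask r) else 0) ≤ onS P1 128 r
    rw [if_pos hr]
    unfold onS
    have hR := ofMask_subset_R10 hr
    by_cases h : r ∈ P1
    · rw [if_pos h]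
      exact (hl _ hR).trans (by norm_num)
    · rw [if_neg h, hl0 _ hR fun h2 => h ((hP1 r hr).2 h2)]
  have hsing : ∀ z : Fin 13, z.val < 10 → 2 ^ z.val < 1024 ∧ ofMask (2 ^ z.val) = {z} := by
    intro z hz
    constructor
    · calc 2 ^ z.val ≤ 2 ^ 9 := Nat.pow_le_pow_right (by norm_num) (by omega)
        _ < 1024 := by norm_num
    · ext i
      rw [mem_ofMask, mem_singleton, Nat.testBit_two_pow, decide_eq_true_eq, Fin.ext_iff]
      exact eq_comm
  rw [e3, e1, e2]
  refine kil_ok hB h157 ?_ ?_ ?_ ?_ ?_ hT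
  · intro r
    by_cases h1 : r < 1024
    · rw [if_pos h1]
      exact ha _ (ofMask_subset_R10 h1)
    · rw [if_neg h1]
      norm_num
  · intro r
    by_cases h1 : r < 1024
    · rw [if_pos h1]
      exact hl _ (ofMask_subset_R10 h1)
    · rw [if_neg h1]
      norm_num
  · intro r hr
    by_cases h1 : r < 1024
    · rw [if_pos h1]
      exact hl0 _ (ofMask_subset_R10 h1) fun h2 => hr ((hP1 r h1).2 h2)
    · rw [if_neg h1]
  · intro z hz
    rw [if_pos (hsing z hz).1, (hsing z hz).2]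
    have h1 := ha1 z hz
    have h2 := mm_comm B z 10
    have h3 := mm_comm B z 11
    have h4 := mm_comm B z 12
    omega
  · intro z hz
    rw [if_pos (hsing z hz).1, (hsing z hz).2]
    exact hl1 z hz

end Pool.Agent.Helper28.TY
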