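import Pool.Agent.Helper28.TY.LamLow
import Pool.Agent.Helper28.TY.SCont

/-!
MP_8ee768_co, project TH-Y': the pair word of the frame `K = {10, 11, 12}` exactly, from counts in
the three links: `count3` (masks) and `Lam_KB_exact` (sets).
-/

set_option autoImplicit false
set_option exponentiation.threshold 20000

namespace Pool.Agent.Helper28.TY

open Finset
open Pool.Agent.Helper89.CV (OddCover ofMask)
open Pool.Agent.Helper97.CV Pool.Agent.Helper79.CV
open Pool.Agent.Helper97.CV.Kill10 (P2)
open Pool.Agent.Helper55.TY.M10 (Dec B5 Q4)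

/-- masks of the triples of the outside points -/
def T3 : Finset ℕ := (L 10 3).toFinset

/-- blocks with the inner part `J` through `s`, by their outer part -/
def NJ (B : Finset (Finset (Fin 13))) (J s : Finset (Fin 13)) : ℕ :=
  ((R10.powersetCard (5 - J.card)).filter fun q => s ⊆ q ∧ J ∪ q ∈ B).card

theorem NJ_eq {B : Finset (Finset (Fin 13))} (hB : ∀ b ∈ B, b.card = 5)
    {J s : Finset (Fin 13)} (hJ : J ⊆ K3) (hs : s ⊆ R10) :
    (B.filter fun b => s ⊆ b ∧ b ∩ K3 = J).card = NJ B J s := by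
  unfold NJ
  have hsplit : ∀ b : Finset (Fin 13), b = (b ∩ K3) ∪ (b ∩ R10) := by
    intro b
    ext v
    rw [mem_union, mem_inter, mem_inter]
    constructor
    · intro h
      by_cases h1 : v ∈ R10
      · exact Or.inr ⟨h, h1⟩
      · exact Or.inl ⟨h, notMem_R10.1 h1⟩
    · rintro (h | h)
      · exact h.1
      · exact h.1
  have hdis : ∀ q : Finset (Fin 13), q ⊆ R10 → Disjoint K3 q := fun q hq => disjoint_K3 hq
  refine card_bij' (fun b _ => b ∩ R10) (fun q _ => J ∪ q) ?_ ?_ ?_ ?_
  · intro b hb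
    rw [mem_filter] at hb
    obtain ⟨h1, h2, h3⟩ := hb
    have h4 := hsplit b
    have h5 : Disjoint (b ∩ K3) (b ∩ R10) :=
      disjoint_of_subset_left inter_subset_right (hdis _ inter_subset_right)
    have h6 := congrArg Finset.card h4
    rw [card_union_of_disjoint h5, hB b h1, h3] at h6
    rw [mem_filter, mem_powersetCard]
    refine ⟨⟨inter_subset_right, by omega⟩, ?_, ?_⟩
    · exact subset_inter h2 hs
    · rw [← h3, ← h4]
      exact h1
  · intro q hq
    rw [mem_filter, mem_powersetCard] at hq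
    obtain ⟨⟨h1, h2⟩, h3, h4⟩ := hq
    rw [mem_filter]
    refine ⟨h4, h3.trans subset_union_right, ?_⟩
    rw [union_inter_distrib_right, inter_eq_left.2 hJ,
      disjoint_iff_inter_eq_empty.1 (hdis q h1).symm, union_empty]
  · intro b hb
    rw [mem_filter] at hb
    obtain ⟨h1, h2, h3⟩ := hb
    rw [← h3]
    exact (hsplit b).symm
  · intro q hq
    rw [mem_filter, mem_powersetCard] at hq
    obtain ⟨⟨h1, h2⟩, h3, h4⟩ := hq
    rw [union_inter_distrib_right, inter_eq_left.2 h1]
    have h5 : J ∩ R10 = ∅ := by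
      rw [← disjoint_iff_inter_eq_empty]
      exact disjoint_of_subset_left hJ (hdis R10 subset_rfl)
    rw [h5, empty_union]

/-- a covering number by inner parts -/
theorem cnt_NJ {B : Finset (Finset (Fin 13))} (hB : ∀ b ∈ B, b.card = 5)
    {J s : Finset (Fin 13)} (hJ : J ⊆ K3) (hs : s ⊆ R10) :
    cnt B (J ∪ s) = ∑ J' ∈ K3.powerset.filter (fun J' => J ⊆ J'), NJ B J' s := by
  unfold cnt
  rw [card_eq_sum_card_fiberwise (f := fun b => b ∩ K3)
    (t := K3.powerset.filter (fun J' => J ⊆ J'))]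
  · refine sum_congr rfl fun J' hJ' => ?_
    rw [mem_filter, mem_powerset] at hJ'
    rw [← NJ_eq hB hJ'.1 hs, filter_filter]
    congr 1
    refine filter_congr fun b _ => ?_
    rw [union_subset_iff]
    constructor
    · rintro ⟨⟨_, h2⟩, h3⟩
      exact ⟨h2, h3⟩
    · rintro ⟨h2, h3⟩
      exact ⟨⟨(h3 ▸ hJ'.2 : J ⊆ b ∩ K3).trans inter_subset_left, h2⟩, h3⟩
  · intro b hb
    rw [mem_coe, mem_filter] at hb
    rw [mem_coe, mem_filter, mem_powerset]
    exact ⟨inter_subset_right, subset_inter (subset_union_left.trans hb.2) hJ⟩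

theorem ps12 : K3.powerset.filter (fun J' => ({12} : Finset (Fin 13)) ⊆ J') =
    {{12}, {12, 11}, {12, 10}, {12, 11, 10}} := by decide

theorem ps11 : K3.powerset.filter (fun J' => ({11} : Finset (Fin 13)) ⊆ J') =
    {{11}, {12, 11}, {11, 10}, {12, 11, 10}} := by decide

theorem ps10 : K3.powerset.filter (fun J' => ({10} : Finset (Fin 13)) ⊆ J') =
    {{10}, {12, 10}, {11, 10}, {12, 11, 10}} := by decide

theorem ps1211 : K3.powerset.filter (fun J' => ({12, 11} : Finset (Fin 13)) ⊆ J') =
    {{12, 11}, {12, 11, 10}} := by decide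

theorem ps1210 : K3.powerset.filter (fun J' => ({12, 10} : Finset (Fin 13)) ⊆ J') =
    {{12, 10}, {12, 11, 10}} := by decide

theorem ps1110 : K3.powerset.filter (fun J' => ({11, 10} : Finset (Fin 13)) ⊆ J') =
    {{11, 10}, {12, 11, 10}} := by decide

theorem sum4 {α : Type} [DecidableEq α] (f : α → ℕ) {a b c d : α} (h1 : a ∉ ({b, c, d} : Finset α))
    (h2 : b ∉ ({c, d} : Finset α)) (h3 : c ∉ ({d} : Finset α)) :
    ∑ x ∈ ({a, b, c, d} : Finset α), f x = f a + f b + f c + f d := by
  rw [sum_insert h1, sum_insert h2, sum_insert h3, sum_singleton]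
  ring

theorem sum2 {α : Type} [DecidableEq α] (f : α → ℕ) {a b : α} (h1 : a ∉ ({b} : Finset α)) :
    ∑ x ∈ ({a, b} : Finset α), f x = f a + f b := by
  rw [sum_insert h1, sum_singleton]

/-- EXACT PAIR WORD, sets -/
theorem Lam_KB_exact {B : Finset (Finset (Fin 13))} (hB : OddCover B) {s : Finset (Fin 13)}
    (hs : s ⊆ R10) (hs2 : s.card = 2) :
    Lam (KB B) s + 15 + (NJ B {12, 11} s + NJ B {12, 11, 10} s) / 2 +
      (NJ B {12, 10} s + NJ B {12, 11, 10} s) / 2 + (NJ B {11, 10} s + NJ B {12, 11, 10} s) / 2 =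
    NJ B {12} s + NJ B {11} s + NJ B {10} s + bad2 B s +
      2 * (NJ B {12, 11} s + NJ B {12, 10} s + NJ B {11, 10} s) + 3 * NJ B {12, 11, 10} s := by
  have k10 : (10 : Fin 13) ∉ s := fun h => absurd (mem_R10.1 (hs h)) (by decide)
  have k11 : (11 : Fin 13) ∉ s := fun h => absurd (mem_R10.1 (hs h)) (by decide)
  have k12 : (12 : Fin 13) ∉ s := fun h => absurd (mem_R10.1 (hs h)) (by decide)
  have c12 := cnt_NJ hB.1 (J := {12}) (by decide) hs
  have c11 := cnt_NJ hB.1 (J := {11}) (by decide) hs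
  have c10 := cnt_NJ hB.1 (J := {10}) (by decide) hs
  have d1211 := cnt_NJ hB.1 (J := {12, 11}) (by decide) hs
  have d1210 := cnt_NJ hB.1 (J := {12, 10}) (by decide) hs
  have d1110 := cnt_NJ hB.1 (J := {11, 10}) (by decide) hs
  rw [ps12, sum4 _ (by decide) (by decide) (by decide)] at c12
  rw [ps11, sum4 _ (by decide) (by decide) (by decide)] at c11
  rw [ps10, sum4 _ (by decide) (by decide) (by decide)] at c10
  rw [ps1211, sum2 _ (by decide)] at d1211
  rw [ps1210, sum2 _ (by decide)] at d1210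
  rw [ps1110, sum2 _ (by decide)] at d1110
  have u1 : ∀ k : Fin 13, ({k} : Finset (Fin 13)) ∪ s = insert k s := fun k =>
    (insert_eq k s).symm
  have u2 : ∀ k l : Fin 13, ({k, l} : Finset (Fin 13)) ∪ s = insert k (insert l s) := by
    intro k l
    rw [insert_union, u1]
  rw [u1] at c12 c11 c10
  rw [u2] at d1211 d1210 d1110
  have t12 := cnt_triple hB (t := insert 12 s) (by rw [card_insert_of_notMem k12, hs2])
  have t11 := cnt_triple hB (t := insert 11 s) (by rw [card_insert_of_notMem k11, hs2])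
  have t10 := cnt_triple hB (t := insert 10 s) (by rw [card_insert_of_notMem k10, hs2])
  have e := P12_incl B hs hs2
  have e10 := Lam_insert_K B hs hs2 (k := 10) (k' := 12) (k'' := 11) (by decide) (by decide)
    (by decide) (by decide)
  rw [← Pz_eq hs2 hs] at e10
  have f1 : ex B (insert 12 (insert 10 s)) = cnt B (insert 12 (insert 10 s)) / 2 := rfl
  have f2 : ex B (insert 11 (insert 10 s)) = cnt B (insert 11 (insert 10 s)) / 2 := rfl
  have f3 : ex B (insert 12 (insert 11 s)) = cnt B (insert 12 (insert 11 s)) / 2 := rfl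
  have hL := Lam_KB hB.1 s
  unfold Lam at t12 t11 t10 e e10 hL ⊢
  omega

/-! ### the masks -/

theorem mem_L10 {k m : ℕ} : m ∈ (L 10 k).toFinset ↔ m < 1024 ∧ (ofMask m).card = k := by
  rw [List.mem_toFinset, mem_L (by norm_num)]
  rw [show (2 : ℕ) ^ 10 = 1024 by norm_num]

/-- families of outside sets by masks -/
theorem card_masks (k : ℕ) (P : Finset (Fin 13) → Prop) [DecidablePred P] :
    ((R10.powersetCard k).filter P).card =
      ((L 10 k).toFinset.filter fun m => P (ofMask m)).card := by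
  refine card_bij' (fun q _ => mk q) (fun m _ => ofMask m) ?_ ?_ ?_ ?_
  · intro q hq
    rw [mem_filter, mem_powersetCard] at hq
    rw [mem_filter, mem_L10, ofMask_mk]
    exact ⟨⟨Pool.Agent.Helper81.TY.mk_lt_R10.2 hq.1.1, hq.1.2⟩, hq.2⟩
  · intro m hm
    rw [mem_filter, mem_L10] at hm
    rw [mem_filter, mem_powersetCard]
    exact ⟨⟨Pool.Agent.Helper81.TY.ofMask_subset_R10 hm.1.1, hm.1.2⟩, hm.2⟩
  · intro q _
    exact ofMask_mk q
  · intro m hm
    rw [mem_filter, mem_L10] at hm
    exact mk_ofMask (lt13' hm.1.1)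

theorem bad2_masks (B : Finset (Finset (Fin 13))) (s : Finset (Fin 13)) :
    bad2 B s = (Q4.filter fun m => s ⊆ ofMask m ∧
      2 ≤ (if insert 10 (ofMask m) ∈ B then 1 else 0) + (if insert 11 (ofMask m) ∈ B then 1 else 0)
        + (if insert 12 (ofMask m) ∈ B then 1 else 0)).card := by
  have h1 : bad2 B s = ((R10.powersetCard 4).filter fun q => s ⊆ q ∧ 2 ≤
      (if insert 10 q ∈ B then 1 else 0) + (if insert 11 q ∈ B then 1 else 0)
        + (if insert 12 q ∈ B then 1 else 0)).card := by
    unfold bad2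
    congr 1
    ext q
    rw [mem_filter, mem_filter, mem_quads, mem_powersetCard]
    have h2 : q ⊆ R10 → (lk B q = (if insert 10 q ∈ B then 1 else 0) +
        (if insert 11 q ∈ B then 1 else 0) + (if insert 12 q ∈ B then 1 else 0)) := by
      intro hq
      unfold lk
      have g : ∀ k : Fin 13, k ∈ K3 → (q ∈ link B k ↔ insert k q ∈ B) := by
        intro k hk
        rw [mem_link]
        exact ⟨fun h => h.2, fun h => ⟨fun h3 => notMem_R10.2 hk (hq h3), h⟩⟩
      rw [if_congr (g 12 (by decide)) rfl rfl, if_congr (g 11 (by decide)) rfl rfl,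
        if_congr (g 10 (by decide)) rfl rfl]
      ring
    constructor
    · rintro ⟨h3, h4, h5, h6⟩
      exact ⟨⟨h5, h3⟩, h4, h2 h5 ▸ h6⟩
    · rintro ⟨⟨h3, h4⟩, h5, h6⟩
      exact ⟨h4, h5, h3, (h2 h3).symm ▸ h6⟩
  rw [h1, card_masks 4]
  rfl

theorem NJ_masks (B : Finset (Finset (Fin 13))) (J s : Finset (Fin 13)) :
    NJ B J s = ((L 10 (5 - J.card)).toFinset.filter fun m => s ⊆ ofMask m ∧
      J ∪ ofMask m ∈ B).card := card_masks _ _

/-- EXACT PAIR WORD, masks (the form of helper52's Words) -/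
theorem count3 {B : Finset (Finset (Fin 13))} (hB : OddCover B) {r : ℕ} (hr : r ∈ P2) :
    Lam (Dec B B5) (ofMask r) + 15 +
      ((T3.filter fun m => ofMask r ⊆ ofMask m ∧ insert 12 (insert 11 (ofMask m)) ∈ B).card +
        (if insert 12 (insert 11 (insert 10 (ofMask r))) ∈ B then 1 else 0)) / 2 +
      ((T3.filter fun m => ofMask r ⊆ ofMask m ∧ insert 12 (insert 10 (ofMask m)) ∈ B).card +
        (if insert 12 (insert 11 (insert 10 (ofMask r))) ∈ B then 1 else 0)) / 2 +
      ((T3.filter fun m => ofMask r ⊆ ofMask m ∧ insert 11 (insert 10 (ofMask m)) ∈ B).card +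
        (if insert 12 (insert 11 (insert 10 (ofMask r))) ∈ B then 1 else 0)) / 2 =
    (Q4.filter fun m => ofMask r ⊆ ofMask m ∧ insert 12 (ofMask m) ∈ B).card +
      (Q4.filter fun m => ofMask r ⊆ ofMask m ∧ insert 11 (ofMask m) ∈ B).card +
      (Q4.filter fun m => ofMask r ⊆ ofMask m ∧ insert 10 (ofMask m) ∈ B).card +
      (Q4.filter fun m => ofMask r ⊆ ofMask m ∧
        2 ≤ (if insert 10 (ofMask m) ∈ B then 1 else 0) +
          (if insert 11 (ofMask m) ∈ B then 1 else 0) +
          (if insert 12 (ofMask m) ∈ B then 1 else 0)).card +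
      2 * ((T3.filter fun m => ofMask r ⊆ ofMask m ∧ insert 12 (insert 11 (ofMask m)) ∈ B).card +
        (T3.filter fun m => ofMask r ⊆ ofMask m ∧ insert 12 (insert 10 (ofMask m)) ∈ B).card +
        (T3.filter fun m => ofMask r ⊆ ofMask m ∧ insert 11 (insert 10 (ofMask m)) ∈ B).card) +
      3 * (if insert 12 (insert 11 (insert 10 (ofMask r))) ∈ B then 1 else 0) := by
  have hr1 := mem_L10.1 hr
  have hs : ofMask r ⊆ R10 := Pool.Agent.Helper81.TY.ofMask_subset_R10 hr1.1
  have h := Lam_KB_exact hB hs hr1.2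
  have c1 : ∀ k : Fin 13, NJ B {k} (ofMask r) =
      (Q4.filter fun m => ofMask r ⊆ ofMask m ∧ insert k (ofMask m) ∈ B).card := by
    intro k
    have e : 5 - ({k} : Finset (Fin 13)).card = 4 := by rw [card_singleton]
    rw [NJ_masks, e]
    unfold Q4
    refine congrArg Finset.card (filter_congr fun m _ => ?_)
    rw [← insert_eq]
  have c2 : ∀ k l : Fin 13, k ≠ l → NJ B {k, l} (ofMask r) =
      (T3.filter fun m => ofMask r ⊆ ofMask m ∧ insert k (insert l (ofMask m)) ∈ B).card := by
    intro k l hkl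
    have e : 5 - ({k, l} : Finset (Fin 13)).card = 3 := by rw [card_pair hkl]
    rw [NJ_masks, e]
    unfold T3
    refine congrArg Finset.card (filter_congr fun m _ => ?_)
    rw [insert_union, ← insert_eq]
  have c3 : NJ B {12, 11, 10} (ofMask r) =
      if insert 12 (insert 11 (insert 10 (ofMask r))) ∈ B then 1 else 0 := by
    unfold NJ
    have e : ({12, 11, 10} : Finset (Fin 13)).card = 3 := by decide
    rw [e]
    have e2 : ((R10.powersetCard (5 - 3)).filter fun q => ofMask r ⊆ q ∧
        ({12, 11, 10} : Finset (Fin 13)) ∪ q ∈ B) =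
        if insert 12 (insert 11 (insert 10 (ofMask r))) ∈ B then {ofMask r} else ∅ := by
      ext q
      rw [mem_filter, mem_powersetCard]
      constructor
      · rintro ⟨⟨h1, h2⟩, h3, h4⟩
        have h5 : ofMask r = q := eq_of_subset_of_card_le h3 (by rw [h2, hr1.2])
        rw [insert_union, insert_union, ← insert_eq, ← h5] at h4
        rw [if_pos h4, mem_singleton]
        exact h5.symm
      · intro h1
        by_cases h2 : insert 12 (insert 11 (insert 10 (ofMask r))) ∈ B
        · rw [if_pos h2, mem_singleton] at h1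
          subst h1
          refine ⟨⟨hs, hr1.2⟩, subset_rfl, ?_⟩
          rw [insert_union, insert_union, ← insert_eq]
          exact h2
        · rw [if_neg h2] at h1
          exact absurd h1 (notMem_empty q)
    rw [e2]
    split_ifs
    · exact card_singleton _
    · exact card_empty
  rw [Dec_B5 hB.1]
  rw [c1, c1, c1, c2 12 11 (by decide), c2 12 10 (by decide), c2 11 10 (by decide), c3,
    bad2_masks] at h
  exact h

end Pool.Agent.Helper28.TY
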