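import Pool.Agent.Helper28.TY.SCont
import Pool.Agent.Helper81.TY.ChunkSound

/-!
MP_8ee768_co, project TH-Y': the callback of helper81's `chunkRun` for the lanes which are not
killed: helper55's search machine M10. `ctS_zero` is the hypothesis `hct` of `chunk_sound`,
`chunk_dead` the composition.
-/

set_option autoImplicit false
set_option exponentiation.threshold 20000

namespace Pool.Agent.Helper28.TY

open Finset
open Pool.Agent.Helper89.CV (OddCover ofMask)
open Pool.Agent.Helper97.CV Pool.Agent.Helper79.CV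
open Pool.Agent.Helper81.TY (bw li fs pc xw pw aw xw_quad xw_other k128_1 chunkRun chunk_sound)
open Pool.Agent.Helper33.TY (PW)
open Pool.Agent.Helper55.TY.M10 (run cB kil KillOK)

/-- the continuation of a lane that is not killed -/
def ctS (T X f a L c : ℕ) : ℕ := run (kil T a (Nat.sub k128_1 L) L) 60 c X cB f

variable {B : Finset (Finset (Fin 13))}

theorem xw_start (hB : OddCover B) : ∀ s ⊆ R10, xw B s =
    if s.card = 4 then li B 12 s ^^^ li B 11 s ^^^ li B 10 s else 0 := by
  intro s hs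
  by_cases h : s.card = 4
  · rw [if_pos h, xw_quad hs h]
    exact Nat.xor_comm _ _
  · rw [if_neg h, xw_other hB h]

theorem pw_start (hB : OddCover B) : ∀ s ⊆ R10, s.card = 2 → pw B s ≤ Lam (KB B) s := by
  intro s hs h
  have h1 := fs_pc_eq hB hs h
  unfold pw
  rw [if_pos h]
  omega

theorem pw_zero : ∀ s ⊆ R10, s.card ≠ 2 → pw B s = 0 := by
  intro s _ h
  unfold pw
  rw [if_neg h]

theorem aw_point (u : Fin 13) : aw B {u} = mm B 12 u + mm B 11 u + mm B 10 u + 1 := by
  unfold aw
  rw [if_pos (card_singleton u), sum_singleton]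

theorem mm_sum_le (hB : OddCover B) (h157 : B.card ≤ 157) {u : Fin 13} (hu : u.val < 10) :
    mm B 12 u + mm B 11 u + mm B 10 u ≤ 88 := by
  have h1 : mm B 12 u + mm B 11 u + mm B 10 u ≤ MM B u := by
    unfold MM
    rw [mm_comm B 12 u, mm_comm B 11 u, mm_comm B 10 u]
    have h2 : ({12, 11, 10} : Finset (Fin 13)) ⊆ ({u} : Finset (Fin 13))ᶜ := by
      intro v hv
      rw [mem_compl, mem_singleton]
      rintro rfl
      simp only [mem_insert, mem_singleton] at hv
      rcases hv with rfl | rfl | rfl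
      · exact absurd hu (by decide)
      · exact absurd hu (by decide)
      · exact absurd hu (by decide)
    refine le_trans (le_of_eq ?_) (sum_le_sum_of_subset h2)
    rw [sum_insert (by decide), sum_insert (by decide), sum_singleton, add_assoc]
  have h2 : MM B u ≤ ∑ z, MM B z := single_le_sum (fun _ _ => Nat.zero_le _) (mem_univ u)
  have h3 := sum_MM_le hB h157
  omega

theorem aw_le (hB : OddCover B) (h157 : B.card ≤ 157) : ∀ s ⊆ R10, aw B s ≤ 97 := by
  intro s hs
  by_cases h : s.card = 1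
  · obtain ⟨u, rfl⟩ := card_eq_one.1 h
    rw [aw_point]
    have h1 := mm_sum_le hB h157 (mem_R10.1 (hs (mem_singleton_self u)))
    omega
  · unfold aw
    rw [if_neg h]
    norm_num

/-- THE CONTINUATION IS CORRECT for every kill test with `KillOK` -/
theorem ct_zero (hB : OddCover B) {K : ℕ → Bool} (hK : KillOK K B) (d c : ℕ) :
    run K d c (bw (xw B)) cB (bw (pw B)) = 0 :=
  run_dead hB hK (xw_start hB) (pw_start hB) pw_zero d c

/-- THE CONTINUATION IS CORRECT: `hct` of `chunk_sound` -/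
theorem ctS_zero (hB : OddCover B) (h157 : B.card ≤ 157) {T : ℕ}
    (hT : 88 < T + (MM B 10 + MM B 11 + MM B 12)) (l : Finset (Fin 13) → ℕ) (c : ℕ)
    (hl0 : ∀ s, s.card ≠ 1 → l s = 0) (hl8 : ∀ s, l s ≤ 8)
    (hl : ∀ u ∈ Pool.Agent.Helper81.TY.R10, l {u} ≤ MM B u) :
    ctS T (bw (xw B)) (bw (pw B)) (bw (aw B)) (bw l) c = 0 := by
  refine kil_dead hB h157 hT (xw_start hB) (pw_start hB) pw_zero (aw_le hB h157) ?_ ?_ ?_ ?_ 60 c
  · intro u _
    exact le_of_eq (aw_point u)
  · intro s _
    exact (hl8 s).trans (by norm_num)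
  · intro s _ h
    exact hl0 s h
  · intro u hu
    exact hl u (Pool.Agent.Helper81.TY.mem_R10.2 hu)

/-- CHUNK + SEARCH: a row of lanes which is accepted contains no lane of a cover -/
theorem chunk_dead (hB : OddCover B) (h157 : B.card ≤ 157) {Q : ℕ} (hQ : PW B Q) {b : ℕ}
    (hb : b ≤ 8) (hlow : ∀ u : Fin 13, u.val < 10 → b ≤ MM B u)
    {nb : Bool} (hnb : nb = true → ∀ u : Fin 13, u.val < 10 → 1 ≤ mm B 10 u → 8 ≤ MM B u)
    {T : ℕ} (hT : 88 < T + (MM B 10 + MM B 11 + MM B 12)) {piece : ℕ → ℕ} {P N k : ℕ}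
    (hk : k < N)
    (hlane : enc 10 4 (link B 10) = (piece (P + k / 64) >>> (210 * (k % 64))) % 2 ^ 210)
    (c : ℕ) : chunkRun T b nb (ctS T) piece P N Q c = 0 :=
  chunk_sound hB h157 hQ hb (fun u hu => hlow u (mem_R10.1 hu))
    (fun h u hu => hnb h u (mem_R10.1 hu)) hT hk hlane
    (fun l c h1 h2 h3 => ctS_zero hB h157 hT l c h1 h2 h3) c

end Pool.Agent.Helper28.TY
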