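import Pool.Agent.Helper55.TY.M10

/-!
MP_8ee768_co, project TH-Y': division of big roots of the search machine M10.

A path code `p` has 13 bits per step (lowest step first): the quad mask (10 bits) and the number
`j` of the child among the surviving children of the quad (3 bits); above the last step the end
mark 1. `part K p S P FR f`: go down the path and run the machine with the stream `S`.
`top K ok d T 0 1 P FR f`: the upper tree; the mask 1023 marks a cut leaf, whose path code must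
satisfy `ok`. `cut_sound`: top and all parts accepted, then there is no cover at the root.
-/

set_option autoImplicit false
set_option exponentiation.threshold 20000

namespace Pool.Agent.Helper28.TY.Cut10

open Finset Pool.Agent.Helper63.SIMD Pool.Agent.Helper97.CV Pool.Agent.Helper97.CV.Cube
open Pool.Agent.Helper97.CV.Kill10
open Pool.Agent.Helper55.TY Pool.Agent.Helper55.TY.M10
open Pool.Agent.Helper89.CV (OddCover ofMask)

/-- one step down: the child number `j` among the surviving children of a quad -/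
def stepJ (K : ℕ → Bool) (k : ℕ → ℕ → ℕ → ℕ) (P f : ℕ) (n : ℕ) : ℕ → ℕ → ℕ → ℕ :=
  @Nat.rec (fun _ => ℕ → ℕ → ℕ → ℕ) (fun _ _ _ => 0) (fun _ ih j E FR =>
    @Nat.rec (fun _ => ℕ) 0 (fun e _ =>
      (fun b => (fun E' FR' t => (fun W =>
        @Nat.rec (fun _ => ℕ)
          (@Nat.rec (fun _ => ℕ) (k (Nat.xor P t) FR' f) (fun j' _ => ih j' E' FR') j)
          (fun _ _ => (fun f' =>
            @Bool.rec (fun _ => ℕ)
              (@Nat.rec (fun _ => ℕ) (k (Nat.xor P t) FR' f') (fun j' _ => ih j' E' FR') j)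
              (ih j E' FR') (K f'))
            (Nat.add (Nat.land (Nat.shiftRight (Nat.mul W cC2) 8184) cM2) f)) W)
        (Nat.land t P))
        (Nat.land E e) (Nat.xor FR b) (Nat.land (Nat.shiftRight (Nat.mul cC1 b) 4096) cQM))
      (Nat.land E (Nat.xor E e))) E) n

/-- go down a path -/
def desc (K : ℕ → Bool) (k : ℕ → ℕ → ℕ → ℕ) (n : ℕ) : ℕ → ℕ → ℕ → ℕ → ℕ :=
  @Nat.rec (fun _ => ℕ → ℕ → ℕ → ℕ → ℕ) (fun _ _ _ _ => 0) (fun _ ih p P FR f =>
    @Bool.rec (fun _ => ℕ)
      (force p P fun P => force p FR fun FR => force p f fun f =>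
        stepJ K (fun P FR f => force p (Nat.div p 8192) fun p' => ih p' P FR f) P f 7
          (Nat.mod (Nat.div p 1024) 8)
          (Nat.land FR (Nat.mul cC8 (Nat.pow 2 (Nat.mul 8 (Nat.mod p 1024))))) FR)
      (k P FR f) (Nat.beq p 1)) n

/-- a part: go down the path, run the machine -/
def part (K : ℕ → Bool) (p S P FR f : ℕ) : ℕ := desc K (fun P FR f => run K 60 S P FR f) 64 p P FR f

/-- the children in the upper tree; `a`, `m`: path code without end mark, weight of the next step -/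
def tchilds (K : ℕ → Bool) (rn : ℕ → ℕ → ℕ → ℕ → ℕ → ℕ → ℕ) (q P f a m : ℕ) (n : ℕ) :
    ℕ → ℕ → ℕ → ℕ → ℕ :=
  @Nat.rec (fun _ => ℕ → ℕ → ℕ → ℕ → ℕ) (fun _ _ _ _ => 0) (fun n ih c j E FR =>
    @Nat.rec (fun _ => ℕ) c (fun e _ =>
      (fun b => (fun E' FR' t => (fun W =>
        @Nat.rec (fun _ => ℕ)
          (force (Nat.add n c) (rn c (Nat.add a (Nat.mul m (Nat.add q (Nat.mul 1024 j))))
            (Nat.mul m 8192) (Nat.xor P t) FR' f) fun c' => ih c' (Nat.add j 1) E' FR')
          (fun _ _ => (fun f' =>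
            @Bool.rec (fun _ => ℕ)
              (force (Nat.add n c) (rn c (Nat.add a (Nat.mul m (Nat.add q (Nat.mul 1024 j))))
                (Nat.mul m 8192) (Nat.xor P t) FR' f') fun c' => ih c' (Nat.add j 1) E' FR')
              (ih c j E' FR') (K f'))
            (Nat.add (Nat.land (Nat.shiftRight (Nat.mul W cC2) 8184) cM2) f)) W)
        (Nat.land t P))
        (Nat.land E e) (Nat.xor FR b) (Nat.land (Nat.shiftRight (Nat.mul cC1 b) 4096) cQM))
      (Nat.land E (Nat.xor E e))) E) n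

/-- the upper tree -/
def top (K : ℕ → Bool) (ok : ℕ → Bool) (d : ℕ) : ℕ → ℕ → ℕ → ℕ → ℕ → ℕ → ℕ :=
  @Nat.rec (fun _ => ℕ → ℕ → ℕ → ℕ → ℕ → ℕ → ℕ) (fun _ _ _ _ _ _ => 0)
    (fun _ rn c a m P FR f =>
    @Bool.rec (fun _ => ℕ)
      (force c a fun a => force c m fun m =>
       force c P fun P => force c FR fun FR => force c f fun f =>
        @Nat.rec (fun _ => ℕ) 0 (fun _ _ => force c (Nat.div c 1024) fun c' =>
          tchilds K rn (Nat.mod c 1024) P f a m 7 c' 0
            (Nat.land FR (Nat.mul cC8 (Nat.pow 2 (Nat.mul 8 (Nat.mod c 1024))))) FR)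
          (Nat.land (Nat.xor cQ P) (Nat.pow 2 (Nat.mul 8 (Nat.mod c 1024)))))
      (@Bool.rec (fun _ => ℕ) 0 (Nat.div c 1024) (ok (Nat.add a m)))
      (Nat.beq (Nat.mod c 1024) 1023)) d

/-! ### equations -/

theorem beq_false {a b : ℕ} (h : a ≠ b) : Nat.beq a b = false := by
  rw [← Bool.not_eq_true, Nat.beq_eq]
  exact h

theorem stepJ_succ (K : ℕ → Bool) (k : ℕ → ℕ → ℕ → ℕ) (P f n j e FR : ℕ) :
    stepJ K k P f (n + 1) j (e + 1) FR =
      (fun b => (fun E' FR' t => (fun W =>
        @Nat.rec (fun _ => ℕ)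
          (@Nat.rec (fun _ => ℕ) (k (Nat.xor P t) FR' f) (fun j' _ => stepJ K k P f n j' E' FR') j)
          (fun _ _ => (fun f' =>
            @Bool.rec (fun _ => ℕ)
              (@Nat.rec (fun _ => ℕ) (k (Nat.xor P t) FR' f')
                (fun j' _ => stepJ K k P f n j' E' FR') j)
              (stepJ K k P f n j E' FR') (K f'))
            (Nat.add (Nat.land (Nat.shiftRight (Nat.mul W cC2) 8184) cM2) f)) W)
        (Nat.land t P))
        (Nat.land (e + 1) e) (Nat.xor FR b)
        (Nat.land (Nat.shiftRight (Nat.mul cC1 b) 4096) cQM))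
      (Nat.land (e + 1) (Nat.xor (e + 1) e)) := rfl

theorem tchilds_zero' (K : ℕ → Bool) (rn : ℕ → ℕ → ℕ → ℕ → ℕ → ℕ → ℕ) (q P f a m n c j FR : ℕ) :
    tchilds K rn q P f a m (n + 1) c j 0 FR = c := rfl

theorem tchilds_succ (K : ℕ → Bool) (rn : ℕ → ℕ → ℕ → ℕ → ℕ → ℕ → ℕ)
    (q P f a m n c j e FR : ℕ) :
    tchilds K rn q P f a m (n + 1) c j (e + 1) FR =
      (fun b => (fun E' FR' t => (fun W =>
        @Nat.rec (fun _ => ℕ)
          (force (Nat.add n c) (rn c (Nat.add a (Nat.mul m (Nat.add q (Nat.mul 1024 j))))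
            (Nat.mul m 8192) (Nat.xor P t) FR' f) fun c' =>
              tchilds K rn q P f a m n c' (Nat.add j 1) E' FR')
          (fun _ _ => (fun f' =>
            @Bool.rec (fun _ => ℕ)
              (force (Nat.add n c) (rn c (Nat.add a (Nat.mul m (Nat.add q (Nat.mul 1024 j))))
                (Nat.mul m 8192) (Nat.xor P t) FR' f') fun c' =>
                  tchilds K rn q P f a m n c' (Nat.add j 1) E' FR')
              (tchilds K rn q P f a m n c j E' FR') (K f'))
            (Nat.add (Nat.land (Nat.shiftRight (Nat.mul W cC2) 8184) cM2) f)) W)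
        (Nat.land t P))
        (Nat.land (e + 1) e) (Nat.xor FR b)
        (Nat.land (Nat.shiftRight (Nat.mul cC1 b) 4096) cQM))
      (Nat.land (e + 1) (Nat.xor (e + 1) e)) := rfl

theorem desc_succ (K : ℕ → Bool) (k : ℕ → ℕ → ℕ → ℕ) (n p P FR f : ℕ) :
    desc K k (n + 1) p P FR f = @Bool.rec (fun _ => ℕ)
      (force p P fun P => force p FR fun FR => force p f fun f =>
        stepJ K (fun P FR f => force p (Nat.div p 8192) fun p' => desc K k n p' P FR f) P f 7
          (Nat.mod (Nat.div p 1024) 8)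
          (Nat.land FR (Nat.mul cC8 (Nat.pow 2 (Nat.mul 8 (Nat.mod p 1024))))) FR)
      (k P FR f) (Nat.beq p 1) := rfl

theorem desc_one (K : ℕ → Bool) (k : ℕ → ℕ → ℕ → ℕ) (n P FR f : ℕ) :
    desc K k (n + 1) 1 P FR f = k P FR f := rfl

/-- one step of a path -/
theorem desc_step (K : ℕ → Bool) (k : ℕ → ℕ → ℕ → ℕ) (n q j c P FR f : ℕ) (hq : q < 1024)
    (hj : j < 8) (hc : 1 ≤ c) :
    desc K k (n + 1) (q + 1024 * j + 8192 * c) P FR f =
      stepJ K (fun P FR f => desc K k n c P FR f) P f 7 j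
        (Nat.land FR (Nat.mul cC8 (2 ^ (8 * q)))) FR := by
  rw [desc_succ]
  have h1 : Nat.beq (q + 1024 * j + 8192 * c) 1 = false := by
    exact beq_false (by omega)
  have h2 : Nat.mod (q + 1024 * j + 8192 * c) 1024 = q := by
    show (q + 1024 * j + 8192 * c) % 1024 = q
    omega
  have h3 : Nat.mod (Nat.div (q + 1024 * j + 8192 * c) 1024) 8 = j := by
    show (q + 1024 * j + 8192 * c) / 1024 % 8 = j
    omega
  have h4 : Nat.div (q + 1024 * j + 8192 * c) 8192 = c := by
    show (q + 1024 * j + 8192 * c) / 8192 = c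
    omega
  rw [h1]
  simp only [force_eq, h2, h3, h4]
  rfl

theorem top_succ (K : ℕ → Bool) (ok : ℕ → Bool) (d c a m P FR f : ℕ) :
    top K ok (d + 1) c a m P FR f = @Bool.rec (fun _ => ℕ)
      (force c a fun a => force c m fun m =>
       force c P fun P => force c FR fun FR => force c f fun f =>
        @Nat.rec (fun _ => ℕ) 0 (fun _ _ => force c (Nat.div c 1024) fun c' =>
          tchilds K (top K ok d) (Nat.mod c 1024) P f a m 7 c' 0
            (Nat.land FR (Nat.mul cC8 (Nat.pow 2 (Nat.mul 8 (Nat.mod c 1024))))) FR)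
          (Nat.land (Nat.xor cQ P) (Nat.pow 2 (Nat.mul 8 (Nat.mod c 1024)))))
      (@Bool.rec (fun _ => ℕ) 0 (Nat.div c 1024) (ok (Nat.add a m)))
      (Nat.beq (Nat.mod c 1024) 1023) := rfl

/-! ### an empty stream -/

theorem tchilds_nil (K : ℕ → Bool) (rn : ℕ → ℕ → ℕ → ℕ → ℕ → ℕ → ℕ)
    (hrn : ∀ a m P F f, rn 0 a m P F f = 0) (q P f a m n : ℕ) :
    ∀ j E F, tchilds K rn q P f a m n 0 j E F = 0 := by
  induction n with
  | zero => exact fun _ _ _ => rfl
  | succ n ih =>
    intro j E F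
    cases E with
    | zero => exact tchilds_zero' ..
    | succ e =>
      rw [tchilds_succ]
      simp only [force_eq, hrn, ih]
      generalize Nat.land _ P = W
      cases W with
      | zero => rfl
      | succ w =>
        show @Bool.rec (fun _ => ℕ) 0 0 _ = 0
        generalize K _ = b
        cases b <;> rfl

theorem top_nil (K : ℕ → Bool) (ok : ℕ → Bool) (d : ℕ) :
    ∀ a m P F f, top K ok d 0 a m P F f = 0 := by
  induction d with
  | zero => exact fun _ _ _ _ _ => rfl
  | succ d ih =>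
    intro a m P F f
    rw [top_succ]
    have e : Nat.beq (Nat.mod 0 1024) 1023 = false := rfl
    rw [e]
    simp only [force_eq]
    have e : Nat.div 0 1024 = 0 := rfl
    rw [e]
    generalize Nat.land (Nat.xor cQ P) _ = x
    cases x with
    | zero => rfl
    | succ x => exact tchilds_nil K _ ih _ _ _ _ _ _ _ _ _

/-! ### reached states -/

/-- the state `(P, FR, f)` is reached from `(P0, F0, f0)` by the path `a` with next weight `m`,
`i` steps -/
def Rch (K : ℕ → Bool) (P0 F0 f0 : ℕ) (i a m P FR f : ℕ) : Prop :=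
  ∀ (k : ℕ → ℕ → ℕ → ℕ) (n c : ℕ), 1 ≤ c →
    desc K k (i + n) (a + m * c) P0 F0 f0 = desc K k n c P FR f

theorem Rch.start (K : ℕ → Bool) (P0 F0 f0 : ℕ) : Rch K P0 F0 f0 0 0 1 P0 F0 f0 := by
  intro k n c _
  rw [Nat.zero_add, Nat.zero_add, Nat.one_mul]

/-- data of one child of a state -/
theorem child_words {SP SE SF : Finset ℕ} {p : ℕ → ℕ} {m : ℕ} (hm : m ∈ SE)
    (hmin : ∀ r ∈ SE, m ≤ r) (hsub : SE ⊆ SF) (hF : SF ⊆ B5) : ∃ e, g SE = e + 1 ∧
    Nat.land (e + 1) (Nat.xor (e + 1) e) = g {m} ∧ Nat.land (e + 1) e = g (SE.erase m) ∧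
    Nat.xor (g SF) (g {m}) = g (SF.erase m) ∧
    Nat.land (Nat.shiftRight (Nat.mul cC1 (g {m})) 4096) cQM = g (Qs m) ∧
    Nat.xor (g SP) (g (Qs m)) = g (symmDiff SP (Qs m)) ∧
    Nat.land (g (Qs m)) (g SP) = g (Qs m ∩ SP) ∧
    Nat.add (Nat.land (Nat.shiftRight (Nat.mul (g (Qs m ∩ SP)) cC2) 8184) cM2) (pk 8 1024 p) =
      pk 8 1024 (fun r => pairF (Qs m ∩ SP) r + p r) := by
  have hne : SE.Nonempty := ⟨m, hm⟩
  obtain ⟨e, he⟩ : ∃ e, g SE = e + 1 := by
    refine Nat.exists_eq_succ_of_ne_zero fun h => ?_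
    rw [g_eq_zero] at h
    exact hne.ne_empty h
  obtain ⟨hl1, hl2⟩ := g_low hm hmin
  have he' : g SE - 1 = e := by omega
  rw [he'] at hl1 hl2
  have hmF := hsub hm
  have hm5 := hF hmF
  have hFR : g SF ^^^ g {m} = g (SF.erase m) := by
    rw [g_xor]
    congr 1
    ext r
    rw [mem_symmDiff, mem_singleton, mem_erase]
    constructor
    · rintro (⟨h1, h2⟩ | ⟨h1, h2⟩)
      · exact ⟨h2, h1⟩
      · rw [h1] at h2
        exact absurd hmF h2
    · rintro ⟨h1, h2⟩
      exact Or.inl ⟨h2, h1⟩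
  have hQ : Qs m ∩ SP ⊆ Q4 := fun r hr => (mem_filter.1 (mem_inter.1 hr).1).1
  refine ⟨e, he, ?_, ?_, hFR, quads_word hm5, g_xor _ _, g_land _ _, ?_⟩
  · rw [← he]
    exact hl2
  · rw [← he]
    exact hl1
  · rw [pair_word hQ]
    exact pk_add

theorem tchilds_sound {K : ℕ → Bool} {B : Finset Blk} (hK : KillOK K B)
    {rn : ℕ → ℕ → ℕ → ℕ → ℕ → ℕ → ℕ} (hrn0 : ∀ a m P F f, rn 0 a m P F f = 0)
    {P0 F0 f0 i q a w E0 FR0 : ℕ} (hq : q < 1024) {SP : Finset ℕ} {p : ℕ → ℕ}
    (hE0 : E0 = Nat.land FR0 (Nat.mul cC8 (2 ^ (8 * q))))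
    (hR : Rch K P0 F0 f0 i a w (g SP) FR0 (pk 8 1024 p))
    (hrn : ∀ c a' w' SP' SF' p', Inv B SP' SF' p' →
      Rch K P0 F0 f0 (i + 1) a' w' (g SP') (g SF') (pk 8 1024 p') →
      rn c a' w' (g SP') (g SF') (pk 8 1024 p') = 0) (n : ℕ) :
    ∀ (c j : ℕ) (SE SF : Finset ℕ), SE ⊆ SF → Inv B SP SF p → (∃ m ∈ SE, ofMask m ∈ B) →
      j + n ≤ 7 →
      (∀ (k : ℕ → ℕ → ℕ → ℕ) (l : ℕ), stepJ K k (g SP) (pk 8 1024 p) 7 (j + l) E0 FR0 =
        stepJ K k (g SP) (pk 8 1024 p) n l (g SE) (g SF)) →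
      tchilds K rn q (g SP) (pk 8 1024 p) a w n c j (g SE) (g SF) = 0 := by
  induction n with
  | zero => exact fun _ _ _ _ _ _ _ _ _ => rfl
  | succ n ih =>
    intro c j SE SF hsub hinv hex hjn hlink
    have hne : SE.Nonempty := by
      obtain ⟨m, hm, _⟩ := hex
      exact ⟨m, hm⟩
    obtain ⟨m, hm, hmin⟩ : ∃ m ∈ SE, ∀ r ∈ SE, m ≤ r :=
      ⟨SE.min' hne, SE.min'_mem hne, fun r hr => SE.min'_le r hr⟩
    have hmF := hsub hm
    obtain ⟨e, he, a1, a2, a3, a4, a5, a6, a7⟩ :=
      child_words (SP := SP) (p := p) hm hmin hsub hinv.free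
    have hsub' : SE.erase m ⊆ SF.erase m := erase_subset_erase _ hsub
    -- unfold one step of the tree
    have step : ∀ c, tchilds K rn q (g SP) (pk 8 1024 p) a w (n + 1) c j (g SE) (g SF) =
        @Nat.rec (fun _ => ℕ)
          (force (Nat.add n c) (rn c (Nat.add a (Nat.mul w (Nat.add q (Nat.mul 1024 j))))
            (Nat.mul w 8192) (g (symmDiff SP (Qs m))) (g (SF.erase m)) (pk 8 1024 p)) fun c' =>
              tchilds K rn q (g SP) (pk 8 1024 p) a w n c' (Nat.add j 1) (g (SE.erase m))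
                (g (SF.erase m)))
          (fun _ _ => @Bool.rec (fun _ => ℕ)
            (force (Nat.add n c) (rn c (Nat.add a (Nat.mul w (Nat.add q (Nat.mul 1024 j))))
              (Nat.mul w 8192) (g (symmDiff SP (Qs m))) (g (SF.erase m))
              (pk 8 1024 (fun r => pairF (Qs m ∩ SP) r + p r))) fun c' =>
                tchilds K rn q (g SP) (pk 8 1024 p) a w n c' (Nat.add j 1) (g (SE.erase m))
                  (g (SF.erase m)))
            (tchilds K rn q (g SP) (pk 8 1024 p) a w n c j (g (SE.erase m)) (g (SF.erase m)))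
            (K (pk 8 1024 (fun r => pairF (Qs m ∩ SP) r + p r))))
          (g (Qs m ∩ SP)) := by
      intro c
      rw [he, tchilds_succ]
      simp only [a1, a2, a3, a4, a5, a6, a7]
    have stepS : ∀ (k : ℕ → ℕ → ℕ → ℕ) (l : ℕ),
        stepJ K k (g SP) (pk 8 1024 p) (n + 1) l (g SE) (g SF) =
        @Nat.rec (fun _ => ℕ)
          (@Nat.rec (fun _ => ℕ) (k (g (symmDiff SP (Qs m))) (g (SF.erase m)) (pk 8 1024 p))
            (fun j' _ => stepJ K k (g SP) (pk 8 1024 p) n j' (g (SE.erase m)) (g (SF.erase m))) l)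
          (fun _ _ => @Bool.rec (fun _ => ℕ)
            (@Nat.rec (fun _ => ℕ) (k (g (symmDiff SP (Qs m))) (g (SF.erase m))
              (pk 8 1024 (fun r => pairF (Qs m ∩ SP) r + p r)))
              (fun j' _ => stepJ K k (g SP) (pk 8 1024 p) n j' (g (SE.erase m))
                (g (SF.erase m))) l)
            (stepJ K k (g SP) (pk 8 1024 p) n l (g (SE.erase m)) (g (SF.erase m)))
            (K (pk 8 1024 (fun r => pairF (Qs m ∩ SP) r + p r))))
          (g (Qs m ∩ SP)) := by
      intro k l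
      rw [he, stepJ_succ]
      simp only [a1, a2, a3, a4, a5, a6, a7]
    -- the child is reached
    have hrch : ∀ f', (∀ k : ℕ → ℕ → ℕ → ℕ, stepJ K k (g SP) (pk 8 1024 p) (n + 1) 0 (g SE)
        (g SF) = k (g (symmDiff SP (Qs m))) (g (SF.erase m)) f') →
        Rch K P0 F0 f0 (i + 1) (Nat.add a (Nat.mul w (Nat.add q (Nat.mul 1024 j))))
          (Nat.mul w 8192) (g (symmDiff SP (Qs m))) (g (SF.erase m)) f' := by
      intro f' h0 k l x hx
      have e1 : Nat.add a (Nat.mul w (Nat.add q (Nat.mul 1024 j))) + Nat.mul w 8192 * x =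
          a + w * (q + 1024 * j + 8192 * x) := by
        show a + w * (q + 1024 * j) + w * 8192 * x = _
        ring
      have e2 : i + 1 + l = i + (l + 1) := by omega
      rw [e1, e2, hR k (l + 1) _ (by omega), desc_step K k l q j x _ _ _ hq (by omega) hx, ← hE0]
      have h1 := hlink (fun P FR f => desc K k l x P FR f) 0
      rw [Nat.add_zero] at h1
      rw [h1, h0]
    by_cases hB : ofMask m ∈ B
    · have hinv' := hinv.into hmF hB
      have hk := hK (fun r => pairF (Qs m ∩ SP) r + p r) (fun r hr => hinv'.lam hr) hinv'.zero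
      by_cases hW0 : Qs m ∩ SP = ∅
      · rw [step]
        have h0 : ∀ k : ℕ → ℕ → ℕ → ℕ, stepJ K k (g SP) (pk 8 1024 p) (n + 1) 0 (g SE) (g SF) =
            k (g (symmDiff SP (Qs m))) (g (SF.erase m)) (pk 8 1024 p) := by
          intro k
          rw [stepS, hW0, g_empty]
          rfl
        rw [hW0, g_empty]
        show force _ _ _ = 0
        have hinv2 : Inv B (symmDiff SP (Qs m)) (SF.erase m) p := by
          refine ⟨hinv'.free, hinv'.par, fun r hr => ?_, hinv.zero⟩
          have h1 := hinv'.pair r hr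
          exact (Nat.le_add_left _ _).trans h1
        rw [force_eq, hrn _ _ _ _ _ _ hinv2 (hrch _ h0)]
        exact tchilds_nil K rn hrn0 _ _ _ _ _ _ _ _ _
      · obtain ⟨x, hx⟩ : ∃ x, g (Qs m ∩ SP) = x + 1 :=
          Nat.exists_eq_succ_of_ne_zero fun h => hW0 (g_eq_zero.1 h)
        have h0 : ∀ k : ℕ → ℕ → ℕ → ℕ, stepJ K k (g SP) (pk 8 1024 p) (n + 1) 0 (g SE) (g SF) =
            k (g (symmDiff SP (Qs m))) (g (SF.erase m))
              (pk 8 1024 (fun r => pairF (Qs m ∩ SP) r + p r)) := by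
          intro k
          rw [stepS, hx]
          show @Bool.rec (fun _ => ℕ) _ _ (K _) = _
          rw [hk]
          rfl
        rw [step, hx]
        show @Bool.rec (fun _ => ℕ) _ _ (K _) = 0
        rw [hk]
        show force _ _ _ = 0
        rw [force_eq, hrn _ _ _ _ _ _ hinv' (hrch _ h0)]
        exact tchilds_nil K rn hrn0 _ _ _ _ _ _ _ _ _
    · have hinv' := hinv.out hB
      have hex' : ∃ m' ∈ SE.erase m, ofMask m' ∈ B := by
        obtain ⟨m', h1, h2⟩ := hex
        refine ⟨m', mem_erase.2 ⟨?_, h1⟩, h2⟩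
        rintro rfl
        exact hB h2
      by_cases hW0 : g (Qs m ∩ SP) = 0
      · rw [step, hW0]
        show force _ _ _ = 0
        rw [force_eq]
        refine ih _ _ _ _ hsub' hinv' hex' (by show j + 1 + n ≤ 7; omega) ?_
        intro k l
        have h1 := hlink k (l + 1)
        rw [stepS, hW0] at h1
        show stepJ K k (g SP) (pk 8 1024 p) 7 (j + 1 + l) E0 FR0 = _
        rw [show j + 1 + l = j + (l + 1) by omega]
        exact h1
      · obtain ⟨x, hx⟩ := Nat.exists_eq_succ_of_ne_zero hW0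
        have hx' : g (Qs m ∩ SP) = x + 1 := hx
        cases hb : K (pk 8 1024 (fun r => pairF (Qs m ∩ SP) r + p r)) with
        | false =>
          rw [step, hx', hb]
          show force _ _ _ = 0
          rw [force_eq]
          refine ih _ _ _ _ hsub' hinv' hex' (by show j + 1 + n ≤ 7; omega) ?_
          intro k l
          have h1 := hlink k (l + 1)
          rw [stepS, hx', hb] at h1
          show stepJ K k (g SP) (pk 8 1024 p) 7 (j + 1 + l) E0 FR0 = _
          rw [show j + 1 + l = j + (l + 1) by omega]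
          exact h1
        | true =>
          rw [step, hx', hb]
          refine ih _ _ _ _ hsub' hinv' hex' (by omega) ?_
          intro k l
          have h1 := hlink k l
          rw [stepS, hx', hb] at h1
          exact h1

theorem top_sound {K : ℕ → Bool} {B : Finset Blk} (hB : OddCover B) (hK : KillOK K B)
    {ok : ℕ → Bool} {P0 F0 f0 : ℕ}
    (hpart : ∀ q, ok q = true → ∃ S, part K q S P0 F0 f0 ≠ 0) (d : ℕ) :
    ∀ (i c a w : ℕ) (SP SF : Finset ℕ) (p : ℕ → ℕ), i + d ≤ 60 → Inv B SP SF p →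
      Rch K P0 F0 f0 i a w (g SP) (g SF) (pk 8 1024 p) →
      top K ok d c a w (g SP) (g SF) (pk 8 1024 p) = 0 := by
  induction d with
  | zero => exact fun _ _ _ _ _ _ _ _ _ _ => rfl
  | succ d ih =>
    intro i c a w SP SF p hid hinv hR
    rw [top_succ]
    by_cases hm : Nat.mod c 1024 = 1023
    · have e : Nat.beq (Nat.mod c 1024) 1023 = true := by
        rw [hm]
        rfl
      rw [e]
      have hok : ok (Nat.add a w) = false := by
        rw [← Bool.not_eq_true]
        intro h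
        obtain ⟨S, hS⟩ := hpart _ h
        apply hS
        unfold part
        have h1 := hR (fun P FR f => run K 60 S P FR f) (64 - i) 1 le_rfl
        rw [show i + (64 - i) = 64 by omega, Nat.mul_one] at h1
        show desc K (fun P FR f => run K 60 S P FR f) 64 (a + w) P0 F0 f0 = 0
        rw [h1, show 64 - i = (63 - i) + 1 by omega, desc_one]
        exact run_sound hB hK 60 S SP SF p hinv
      rw [hok]
    · have e : Nat.beq (Nat.mod c 1024) 1023 = false := beq_false hm
      rw [e]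
      simp only [force_eq]
      show @Nat.rec (fun _ => ℕ) 0 (fun _ _ =>
        tchilds K (top K ok d) (c % 1024) (g SP) (pk 8 1024 p) a w 7 (Nat.div c 1024) 0
          (Nat.land (g SF) (Nat.mul cC8 (2 ^ (8 * (c % 1024))))) (g SF))
        (Nat.land (Nat.xor cQ (g SP)) (2 ^ (8 * (c % 1024)))) = 0
      have e1 : Nat.land (Nat.xor cQ (g SP)) (2 ^ (8 * (c % 1024))) =
          g (symmDiff Q4 SP ∩ {c % 1024}) := by
        rw [← g_singleton, ← g_land, ← g_xor, ← cQ_eq, raw_land, raw_xor]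
      rw [e1]
      by_cases hq : c % 1024 ∈ symmDiff Q4 SP
      · have h4 : c % 1024 ∈ Q4 ∧ c % 1024 ∉ SP := by
          rcases mem_symmDiff.1 hq with h | h
          · exact h
          · exact absurd ((hinv.par _).1 h.1).1 h.2
        obtain ⟨x, hx⟩ : ∃ x, g (symmDiff Q4 SP ∩ {c % 1024}) = x + 1 := by
          refine Nat.exists_eq_succ_of_ne_zero fun h => ?_
          rw [g_eq_zero] at h
          have h5 : c % 1024 ∈ symmDiff Q4 SP ∩ {c % 1024} :=
            mem_inter.2 ⟨hq, mem_singleton_self _⟩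
          rw [h] at h5
          exact absurd h5 (notMem_empty _)
        rw [hx]
        have hcand := cand_word SF (c % 1024)
        show tchilds K (top K ok d) (c % 1024) (g SP) (pk 8 1024 p) a w 7 (Nat.div c 1024) 0
          (Nat.land (g SF) (Nat.mul cC8 (2 ^ (8 * (c % 1024))))) (g SF) = 0
        rw [hcand]
        refine tchilds_sound (P0 := P0) (F0 := F0) (f0 := f0) (i := i)
          (E0 := g (Cand SF (c % 1024))) (FR0 := g SF) hK (top_nil K ok d)
          (Nat.mod_lt _ (by norm_num)) hcand.symm hR ?_ 7 _ _ _ _ (filter_subset _ _) hinv ?_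
          (by norm_num) ?_
        · intro c' a' w' SP' SF' p' hinv' hR'
          exact ih (i + 1) c' a' w' SP' SF' p' (by omega) hinv' hR'
        · exact exists_free hB hinv.free h4.1 fun ho => h4.2 ((hinv.par _).2 ⟨h4.1, ho⟩)
        · intro k l
          rw [Nat.zero_add]
      · have h5 : symmDiff Q4 SP ∩ {c % 1024} = ∅ := by
          rw [inter_comm, singleton_inter_of_notMem hq]
        rw [h5, g_empty]
        exact rfl

/-- DIVISION OF A ROOT: top tree and all parts accepted, then the state has no cover -/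
theorem cut_sound {K : ℕ → Bool} {B : Finset Blk} (hB : OddCover B) (hK : KillOK K B)
    {ok : ℕ → Bool} {SP SF : Finset ℕ} {p : ℕ → ℕ} (hinv : Inv B SP SF p)
    (hpart : ∀ q, ok q = true → ∃ S, part K q S (g SP) (g SF) (pk 8 1024 p) ≠ 0) (T : ℕ) :
    top K ok 60 T 0 1 (g SP) (g SF) (pk 8 1024 p) = 0 :=
  top_sound hB hK hpart 60 0 T 0 1 SP SF p (by norm_num) hinv (Rch.start K _ _ _)

end Pool.Agent.Helper28.TY.Cut10
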