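import Pool.Agent.Helper28.TY.CtR
import Pool.Agent.Helper54.TY.QS

/-!
MP_8ee768_co, project TH-Y', stage S: the rows of the glued table run through helper81's lane
program and helper55's search machine; the statement `hrun` of helper54's `sok_QS`.
-/

set_option autoImplicit false
set_option exponentiation.threshold 20000

namespace Pool.Agent.Helper28.TY

open Finset
open Pool.Agent.Helper89.CV (OddCover ofMask)
open Pool.Agent.Helper97.CV Pool.Agent.Helper79.CV
open Pool.Agent.Helper4.CV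
open Pool.Agent.Helper81.TY (chunkRun)
open Pool.Agent.Helper33.TY (PW)
open Pool.Agent.Helper54.TY (QS twoS_card)

/-- lane `k` of the rows `P, P + 1, ..` of 64 dense lanes of 210 bits -/
def rlane (piece : ℕ → ℕ) (P k : ℕ) : ℕ := (piece (P + k / 64) >>> (210 * (k % 64))) % 2 ^ 210

/-- the lanes of a type -/
def rlanes (piece gP gN : ℕ → ℕ) (t : ℕ) : Set ℕ := {R | ∃ k < gN t, R = rlane piece (gP t) k}

/-- the run through the lanes of type `t` -/
def runT (T b : ℕ) (nb : Bool) (piece gP gN : ℕ → ℕ) (t Q c : ℕ) : ℕ :=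
  chunkRun T b nb (ctR T) piece (gP t) (gN t) Q c

/-- GENERAL FORM: base `b`, switch `nb`, threshold `T` -/
theorem runT_dead {B : Finset (Finset (Fin 13))} (hB : OddCover B) (h157 : B.card ≤ 157)
    {b : ℕ} (hb : b ≤ 8) (hlow : ∀ u : Fin 13, u.val < 10 → b ≤ MM B u)
    {nb : Bool} (hnb : nb = true → ∀ u : Fin 13, u.val < 10 → 1 ≤ mm B 10 u → 8 ≤ MM B u)
    {T : ℕ} (hT : 88 < T + (MM B 10 + MM B 11 + MM B 12)) {piece gP gN : ℕ → ℕ} {t Q c : ℕ}
    (hQ : PW B Q) (hl : enc 10 4 (link B 10) ∈ rlanes piece gP gN t) :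
    runT T b nb piece gP gN t Q c = 0 := by
  obtain ⟨k, hk, e⟩ := hl
  exact chunk_deadR hB h157 hQ hb hlow hnb hT hk e c

/-- the neighbours of a point of `MM = 6` are heavy if the light points are independent -/
theorem nb_of_ind {B : Finset (Finset (Fin 13))} (hB : OddCover B) (hI : Ind B)
    (h6 : MM B 10 ≤ 6) : ∀ u : Fin 13, u.val < 10 → 1 ≤ mm B 10 u → 8 ≤ MM B u := by
  intro u hu h1
  by_contra h2
  obtain ⟨k, hk⟩ := MM_even hB u
  have h3 := hI 10 u (by rintro rfl; exact absurd hu (by decide)) h6 (by omega)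
  omega

/-- `hrun` OF STAGE S -/
theorem hrun_QS {a b : ℕ} (hab : a + b ≤ 83) {NT : ℕ} (piece gP gN : ℕ → ℕ) :
    ∀ (B : Finset (Finset (Fin 13))) (t Q c : ℕ), QS a b B 12 11 → PW B Q →
      MM B 10 = 6 → t < NT → enc 10 4 (link B 10) ∈ rlanes piece gP gN t →
      runT (89 - a - b - 6) 6 true piece gP gN t Q c ≠ 0 → False := by
  intro B t Q c hC hQ h6 _ hl hne
  have hB := hC.1.best.odd
  refine hne (runT_dead hB (twoS_card hC.1) (by norm_num) ?_ ?_ ?_ hQ hl)
  · intro u hu
    refine hC.1.other u ?_ ?_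
    · rintro rfl
      exact absurd hu (by decide)
    · rintro rfl
      exact absurd hu (by decide)
  · intro _
    exact nb_of_ind hB hC.1.ind h6.le
  · rw [h6, hC.1.hx, hC.1.hy]
    omega

/-- the same with the threshold `83 - a - b` -/
theorem hrun_QS83 {a b : ℕ} (hab : a + b ≤ 83) {NT : ℕ} (piece gP gN : ℕ → ℕ) :
    ∀ (B : Finset (Finset (Fin 13))) (t Q c : ℕ), QS a b B 12 11 → PW B Q →
      MM B 10 = 6 → t < NT → enc 10 4 (link B 10) ∈ rlanes piece gP gN t →
      runT (83 - a - b) 6 true piece gP gN t Q c ≠ 0 → False := by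
  have h := hrun_QS hab (NT := NT) piece gP gN
  have e : 89 - a - b - 6 = 83 - a - b := by omega
  rw [e] at h
  exact h

end Pool.Agent.Helper28.TY
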