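import Mathlib

/-!
MP_8ee768_co, project TH-Y': words of 8-bit fields with entries 0 and 1 as finite sets of masks.

`ind S`: the word with a one in the fields `r ∈ S`. All operations of the search machines
M10 / M11 on such words.
-/

set_option autoImplicit false
set_option exponentiation.threshold 20000

namespace Pool.Agent.Helper28.TY.Ind

open Finset

/-- the word with ones in the fields of `S` -/
def ind (S : Finset ℕ) : ℕ := ∑ r ∈ S, 2 ^ (8 * r)

theorem testBit_sum_two_pow (s : Finset ℕ) (i : ℕ) :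
    (∑ j ∈ s, 2 ^ j).testBit i = decide (i ∈ s) := by
  have h := Finset.toFinset_bitIndices_sum_two_pow s
  have h1 : (i ∈ (∑ j ∈ s, 2 ^ j).bitIndices.toFinset) ↔ i ∈ s := by rw [h]
  rw [List.mem_toFinset, Nat.mem_bitIndices] at h1
  rw [Bool.eq_iff_iff, h1, decide_eq_true_eq]

theorem inj8 : Function.Injective (fun r : ℕ => 8 * r) := fun a b h => by
  have : 8 * a = 8 * b := h
  omega

theorem ind_eq (S : Finset ℕ) : ind S = ∑ j ∈ S.map ⟨fun r => 8 * r, inj8⟩, 2 ^ j := by
  rw [sum_map]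
  rfl

theorem mem_map8 {S : Finset ℕ} {i : ℕ} :
    i ∈ S.map ⟨fun r => 8 * r, inj8⟩ ↔ i % 8 = 0 ∧ i / 8 ∈ S := by
  rw [mem_map]
  constructor
  · rintro ⟨r, hr, h⟩
    have h1 : 8 * r = i := h
    subst h1
    refine ⟨by omega, ?_⟩
    rwa [Nat.mul_div_cancel_left _ (by norm_num)]
  · rintro ⟨h1, h2⟩
    exact ⟨i / 8, h2, by show 8 * (i / 8) = i; omega⟩

theorem testBit_ind (S : Finset ℕ) (i : ℕ) :
    (ind S).testBit i = decide (i % 8 = 0 ∧ i / 8 ∈ S) := by
  rw [ind_eq, testBit_sum_two_pow, decide_eq_decide]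
  exact mem_map8

theorem testBit_ind8 (S : Finset ℕ) (r : ℕ) : (ind S).testBit (8 * r) = decide (r ∈ S) := by
  rw [testBit_ind, decide_eq_decide]
  have h : 8 * r / 8 = r := Nat.mul_div_cancel_left _ (by norm_num)
  rw [h]
  exact ⟨fun h => h.2, fun h => ⟨by omega, h⟩⟩

theorem ind_inj {S T : Finset ℕ} (h : ind S = ind T) : S = T := by
  ext r
  have h1 := testBit_ind8 S r
  rw [h, testBit_ind8] at h1
  rw [decide_eq_decide] at h1
  exact h1.symm

theorem ind_empty : ind ∅ = 0 := rfl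

theorem ind_eq_zero {S : Finset ℕ} : ind S = 0 ↔ S = ∅ := by
  constructor
  · intro h
    exact ind_inj (h.trans ind_empty.symm)
  · rintro rfl
    rfl

theorem ind_singleton (r : ℕ) : ind {r} = 2 ^ (8 * r) := by
  unfold ind
  rw [sum_singleton]

theorem ind_insert {S : Finset ℕ} {r : ℕ} (h : r ∉ S) : ind (insert r S) = 2 ^ (8 * r) + ind S := by
  unfold ind
  rw [sum_insert h]

theorem ind_land (S T : Finset ℕ) : ind S &&& ind T = ind (S ∩ T) := by
  refine Nat.eq_of_testBit_eq fun i => ?_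
  rw [Nat.testBit_and, testBit_ind, testBit_ind, testBit_ind, ← Bool.decide_and, decide_eq_decide,
    mem_inter]
  tauto

theorem ind_lor (S T : Finset ℕ) : ind S ||| ind T = ind (S ∪ T) := by
  refine Nat.eq_of_testBit_eq fun i => ?_
  rw [Nat.testBit_or, testBit_ind, testBit_ind, testBit_ind, ← Bool.decide_or, decide_eq_decide,
    mem_union]
  tauto

theorem ind_xor (S T : Finset ℕ) : ind S ^^^ ind T = ind (symmDiff S T) := by
  refine Nat.eq_of_testBit_eq fun i => ?_
  rw [Nat.testBit_xor, testBit_ind, testBit_ind, testBit_ind]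
  by_cases h0 : i % 8 = 0 <;> by_cases h1 : i / 8 ∈ S <;> by_cases h2 : i / 8 ∈ T <;>
    simp [h0, h1, h2, mem_symmDiff]

theorem ind_xor_single {S : Finset ℕ} {r : ℕ} (h : r ∈ S) :
    ind S ^^^ 2 ^ (8 * r) = ind (S.erase r) := by
  rw [← ind_singleton, ind_xor]
  congr 1
  ext s
  rw [mem_symmDiff, mem_singleton, mem_erase]
  constructor
  · rintro (⟨h1, h2⟩ | ⟨h1, h2⟩)
    · exact ⟨h2, h1⟩
    · exact absurd (h1 ▸ h) h2
  · rintro ⟨h1, h2⟩
    exact Or.inl ⟨h2, h1⟩

/-- one of the sets is a mask of full fields -/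
theorem ind_land_mask {S T : Finset ℕ} {m : ℕ}
    (hm : ∀ r, m.testBit (8 * r) = decide (r ∈ T)) : ind S &&& m = ind (S ∩ T) := by
  refine Nat.eq_of_testBit_eq fun i => ?_
  rw [Nat.testBit_and, testBit_ind, testBit_ind]
  by_cases h0 : i % 8 = 0
  · have h1 : 8 * (i / 8) = i := by omega
    have h2 := hm (i / 8)
    rw [h1] at h2
    rw [h2]
    by_cases h3 : i / 8 ∈ S <;> by_cases h4 : i / 8 ∈ T <;> simp [h0, h3, h4]
  · simp [h0]

/-! ### lowest field -/

/-- `E &&& (E - 1)` removes the lowest one -/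
theorem land_pred_add {x a : ℕ} : (2 ^ (a + 1) * x + 2 ^ a) &&& (2 ^ (a + 1) * x + 2 ^ a - 1) =
    2 ^ (a + 1) * x := by
  have hp := Nat.two_pow_pos a
  have h1 : 2 ^ (a + 1) * x + 2 ^ a - 1 = 2 ^ (a + 1) * x + (2 ^ a - 1) := by omega
  rw [h1]
  refine Nat.eq_of_testBit_eq fun i => ?_
  have hl : 2 ^ a < 2 ^ (a + 1) := by rw [pow_succ]; omega
  rw [Nat.testBit_and, Nat.testBit_two_pow_mul_add _ hl,
    Nat.testBit_two_pow_mul_add _ (by omega : 2 ^ a - 1 < 2 ^ (a + 1)), Nat.testBit_two_pow_mul]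
  by_cases h : i < a + 1
  · rw [if_pos h, if_pos h, Nat.testBit_two_pow, Nat.testBit_two_pow_sub_one]
    have h2 : decide (i ≥ a + 1) = false := by
      rw [decide_eq_false_iff_not]
      omega
    rw [h2, Bool.false_and]
    by_cases h3 : a = i
    · subst h3
      simp
    · simp [h3]
  · rw [if_neg h, if_neg h, Bool.and_self]
    have h2 : decide (i ≥ a + 1) = true := by
      rw [decide_eq_true_eq]
      omega
    rw [h2, Bool.true_and]

theorem exists_low {S : Finset ℕ} (h : S.Nonempty) : ∃ r x, r ∈ S ∧ (∀ s ∈ S, r ≤ s) ∧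
    ind S = 2 ^ (8 * r + 1) * x + 2 ^ (8 * r) ∧ ind (S.erase r) = 2 ^ (8 * r + 1) * x := by
  refine ⟨S.min' h, ∑ s ∈ S.erase (S.min' h), 2 ^ (8 * s - (8 * S.min' h + 1)), S.min'_mem h,
    fun s hs => S.min'_le s hs, ?_, ?_⟩
  · unfold ind
    rw [← add_sum_erase S _ (S.min'_mem h), mul_sum, add_comm]
    congr 1
    refine sum_congr rfl fun s hs => ?_
    have h1 := S.min'_lt_of_mem_erase_min' h hs
    rw [← pow_add]
    congr 1
    omega
  · unfold ind
    rw [mul_sum]
    refine sum_congr rfl fun s hs => ?_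
    have h1 := S.min'_lt_of_mem_erase_min' h hs
    rw [← pow_add]
    congr 1
    omega

/-- LOWEST FIELD: for `ind S = e + 1` the lowest field `r` is `E &&& (E xor e)`, the rest `E &&& e` -/
theorem low {S : Finset ℕ} {e : ℕ} (h : ind S = e + 1) : ∃ r ∈ S, (∀ s ∈ S, r ≤ s) ∧
    ind S &&& (ind S ^^^ e) = 2 ^ (8 * r) ∧ ind S &&& e = ind (S.erase r) := by
  have hne : S.Nonempty := by
    rw [nonempty_iff_ne_empty]
    rintro rfl
    rw [ind_empty] at h
    omega
  obtain ⟨r, x, hr, hmin, h1, h2⟩ := exists_low hne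
  have he : e = 2 ^ (8 * r + 1) * x + 2 ^ (8 * r) - 1 := by omega
  have h3 : ind S &&& e = ind (S.erase r) := by
    rw [he, h1, h2]
    exact land_pred_add
  refine ⟨r, hr, hmin, ?_, h3⟩
  rw [Nat.and_xor_distrib_left, Nat.and_self, h3]
  rw [← ind_singleton, ind_xor]
  congr 1
  ext s
  rw [mem_symmDiff, mem_erase, mem_singleton]
  constructor
  · rintro (⟨ha, hb⟩ | ⟨ha, hb⟩)
    · by_contra hc
      exact hb ⟨hc, ha⟩
    · exact absurd ha.2 hb
  · rintro rfl
    exact Or.inl ⟨hr, fun hc => hc.1 rfl⟩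

/-! ### shifted unions -/

/-- multiplication with one field moves all fields -/
theorem ind_mul_pow (S : Finset ℕ) (q : ℕ) :
    ind S * 2 ^ (8 * q) = ind (S.map ⟨fun r => r + q, add_left_injective q⟩) := by
  unfold ind
  rw [sum_mul, sum_map]
  refine sum_congr rfl fun r _ => ?_
  rw [← pow_add]
  congr 1
  show 8 * r + 8 * q = 8 * (r + q)
  ring

/-- CANDIDATES: the fields `q + p`, `p ∈ Ps`, which belong to `S` -/
theorem ind_cand (S Ps : Finset ℕ) (q : ℕ) :
    ind S &&& (ind Ps * 2 ^ (8 * q)) = ind (S.filter fun r => ∃ p ∈ Ps, p + q = r) := by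
  rw [ind_mul_pow, ind_land]
  congr 1
  ext r
  rw [mem_inter, mem_filter, mem_map]
  rfl

/-- QUADS OF A BLOCK: the fields `q` of the mask with `q + p = R` for some `p`; the constant `c` is
the reversal of `Ps` with respect to `D` -/
theorem ind_below {Ps T : Finset ℕ} {D R m : ℕ} (hP : ∀ p ∈ Ps, p ≤ D)
    (hm : ∀ r, m.testBit (8 * r) = decide (r ∈ T)) :
    (((∑ p ∈ Ps, 2 ^ (8 * (D - p))) * 2 ^ (8 * R)) >>> (8 * D)) &&& m =
      ind (T.filter fun q => ∃ p ∈ Ps, q + p = R) := by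
  refine Nat.eq_of_testBit_eq fun i => ?_
  have hinj : Set.InjOn (fun p => D - p) (Ps : Set ℕ) := by
    intro a ha b hb hab
    have h1 := hP a ha
    have h2 := hP b hb
    have h3 : D - a = D - b := hab
    omega
  have h1 : (∑ p ∈ Ps, 2 ^ (8 * (D - p))) = ind (Ps.image fun p => D - p) := by
    unfold ind
    rw [sum_image hinj]
  rw [h1, ind_mul_pow, Nat.testBit_and, Nat.testBit_shiftRight, testBit_ind, testBit_ind]
  by_cases h0 : i % 8 = 0
  · have e1 : (8 * D + i) % 8 = 0 := by omega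
    have e2 : (8 * D + i) / 8 = D + i / 8 := by omega
    have e3 : 8 * (i / 8) = i := by omega
    have h2 := hm (i / 8)
    rw [e3] at h2
    rw [h2, e2, ← Bool.decide_and, decide_eq_decide, mem_filter, mem_map]
    constructor
    · rintro ⟨⟨_, x, hx, hx2⟩, h3⟩
      obtain ⟨p, hp, rfl⟩ := mem_image.1 hx
      refine ⟨h0, h3, p, hp, ?_⟩
      have h4 := hP p hp
      have h5 : D - p + R = D + i / 8 := hx2
      omega
    · rintro ⟨_, h3, p, hp, h4⟩
      refine ⟨⟨e1, D - p, mem_image_of_mem _ hp, ?_⟩, h3⟩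
      have h5 := hP p hp
      show D - p + R = D + i / 8
      omega
  · simp [h0]

end Pool.Agent.Helper28.TY.Ind
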