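import Pool.Agent.Helper28.TY.K3

/-!
MP_8ee768_co, project TH-Y': lower bound of the pair word `Lam (KB B)` in the frame
`K = {10, 11, 12}` from the bad triples of the three links (layered lanes).

`bd B q = 1` iff the set `q` lies in at least two (so three) blocks.
-/

set_option autoImplicit false

namespace Pool.Agent.Helper28.TY

open Finset
open Pool.Agent.Helper89.CV (OddCover)
open Pool.Agent.Helper97.CV

/-- the flag of a bad quad -/
def bd (B : Finset (Finset (Fin 13))) (q : Finset (Fin 13)) : ℕ := if 2 ≤ cnt B q then 1 else 0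

theorem bd_le_one (B : Finset (Finset (Fin 13))) (q : Finset (Fin 13)) : bd B q ≤ 1 := by
  unfold bd
  split_ifs <;> omega

theorem bd_le_ex (B : Finset (Finset (Fin 13))) (q : Finset (Fin 13)) : bd B q ≤ ex B q := by
  unfold bd ex
  split_ifs with h <;> omega

/-- a triple and its quads -/
theorem Lam_triple (B : Finset (Finset (Fin 13))) {t : Finset (Fin 13)} (ht : t.card = 3) :
    Lam B t = ∑ v ∈ tᶜ, ex B (insert v t) := by
  have h := LamW_rec (ex B) t
  rw [ht] at h
  unfold Lam
  rw [show (4 - 3 : ℕ) = 1 by norm_num, one_mul] at h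
  rw [← h]
  refine sum_congr rfl fun v hv => ?_
  rw [mem_compl] at hv
  exact LamW_quad (ex B) (by rw [card_insert_of_notMem hv, ht])

theorem compl_insert_K {s : Finset (Fin 13)} (hs : s ⊆ R10) {k k' k'' : Fin 13}
    (hK : K3 = {k, k', k''}) (h1 : k ≠ k') (h2 : k ≠ k'') :
    (insert k s)ᶜ = insert k' (insert k'' (R10 \ s)) := by
  have hk' : k' ∈ K3 := by
    rw [hK]
    simp
  have hk'' : k'' ∈ K3 := by
    rw [hK]
    simp
  ext v
  rw [mem_compl, mem_insert, not_or, mem_insert, mem_insert, mem_sdiff]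
  constructor
  · rintro ⟨ha, hb⟩
    by_cases hv : v ∈ R10
    · exact Or.inr (Or.inr ⟨hv, hb⟩)
    · have h := notMem_R10.1 hv
      rw [hK, mem_insert, mem_insert, mem_singleton] at h
      rcases h with h | h | h
      · exact absurd h ha
      · exact Or.inl h
      · exact Or.inr (Or.inl h)
  · rintro (rfl | rfl | ⟨ha, hb⟩)
    · exact ⟨h1.symm, fun h => notMem_R10.2 hk' (hs h)⟩
    · exact ⟨h2.symm, fun h => notMem_R10.2 hk'' (hs h)⟩
    · refine ⟨?_, hb⟩
      rintro rfl
      have hk : v ∈ K3 := by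
        rw [hK]
        simp
      exact notMem_R10.2 hk ha

/-- the quads through `s` and one inner point -/
theorem Lam_insert_K (B : Finset (Finset (Fin 13))) {s : Finset (Fin 13)} (hs : s ⊆ R10)
    (hs2 : s.card = 2) {k k' k'' : Fin 13} (hK : K3 = {k, k', k''}) (h1 : k ≠ k')
    (h2 : k ≠ k'') (h3 : k' ≠ k'') :
    Lam B (insert k s) = ex B (insert k' (insert k s)) + (ex B (insert k'' (insert k s)) +
      ∑ w ∈ R10 \ s, ex B (insert w (insert k s))) := by
  have hkK : k ∈ K3 := by
    rw [hK]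
    simp
  have hk'K : k' ∈ K3 := by
    rw [hK]
    simp
  have hk''K : k'' ∈ K3 := by
    rw [hK]
    simp
  have hk : k ∉ s := fun h => notMem_R10.2 hkK (hs h)
  rw [Lam_triple B (by rw [card_insert_of_notMem hk, hs2]), compl_insert_K hs hK h1 h2,
    sum_insert, sum_insert]
  · intro h
    exact notMem_R10.2 hk''K (mem_sdiff.1 h).1
  · intro h
    rcases mem_insert.1 h with h | h
    · exact h3 h
    · exact notMem_R10.2 hk'K (mem_sdiff.1 h).1

/-- inclusion and exclusion over the points 12 and 11 -/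
theorem P12_incl (B : Finset (Finset (Fin 13))) {s : Finset (Fin 13)} (hs : s ⊆ R10)
    (hs2 : s.card = 2) :
    P12 B s + ex B (insert 12 (insert 11 s)) = Lam B (insert 12 s) + Lam B (insert 11 s) := by
  have h11 : (11 : Fin 13) ∉ s := fun h => absurd (mem_R10.1 (hs h)) (by decide)
  have h12 : (12 : Fin 13) ∉ insert 11 s := by
    rw [mem_insert, not_or]
    exact ⟨by decide, fun h => absurd (mem_R10.1 (hs h)) (by decide)⟩
  have hq : (insert 12 (insert 11 s)).card = 4 := by
    rw [card_insert_of_notMem h12, card_insert_of_notMem h11, hs2]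
  have h1 : ex B (insert 12 (insert 11 s)) = LamW (ex B) (insert 12 (insert 11 s)) :=
    (LamW_quad (ex B) hq).symm
  rw [h1]
  unfold P12 Lam LamW
  rw [sum_filter, sum_filter, sum_filter, sum_filter, ← sum_add_distrib, ← sum_add_distrib]
  refine sum_congr rfl fun q _ => ?_
  have e1 : insert 12 (insert 11 s) ⊆ q ↔ 12 ∈ q ∧ 11 ∈ q ∧ s ⊆ q := by
    rw [insert_subset_iff, insert_subset_iff]
  have e2 : insert 12 s ⊆ q ↔ 12 ∈ q ∧ s ⊆ q := insert_subset_iff
  have e3 : insert 11 s ⊆ q ↔ 11 ∈ q ∧ s ⊆ q := insert_subset_iff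
  by_cases a : s ⊆ q <;> by_cases b : (12 : Fin 13) ∈ q <;> by_cases c : (11 : Fin 13) ∈ q <;>
    simp [e1, e2, e3, a, b, c]

/-- the excess through two inner points and one outer one, exactly -/
theorem P12_eq_sum (B : Finset (Finset (Fin 13))) {s : Finset (Fin 13)} (hs : s ⊆ R10)
    (hs2 : s.card = 2) :
    P12 B s = ∑ w ∈ R10 \ s, (ex B (insert 12 (insert w s)) + ex B (insert 11 (insert w s))) +
      (ex B (insert 12 (insert 11 s)) + ex B (insert 12 (insert 10 s)) +
        ex B (insert 11 (insert 10 s))) := by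
  have h := P12_incl B hs hs2
  rw [Lam_insert_K B hs hs2 (k := 12) (k' := 11) (k'' := 10) rfl (by decide) (by decide)
    (by decide), Lam_insert_K B hs hs2 (k := 11) (k' := 12) (k'' := 10) (by decide) (by decide)
    (by decide) (by decide)] at h
  have e1 : ∀ k w : Fin 13, insert w (insert k s) = insert k (insert w s) := fun k w =>
    insert_comm w k s
  rw [sum_add_distrib]
  rw [sum_congr rfl fun w _ => congrArg (ex B) (e1 12 w),
    sum_congr rfl fun w _ => congrArg (ex B) (e1 11 w), e1 12 11, e1 12 10, e1 11 10] at h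
  omega

/-- THE LOWER BOUND of the pair word from bad triples and common quads -/
theorem lam_low {B : Finset (Finset (Fin 13))} (hB : ∀ b ∈ B, b.card = 5)
    {s : Finset (Fin 13)} (hs : s ⊆ R10) (hs2 : s.card = 2) :
    bad2 B s + ∑ w ∈ R10 \ s, (bd B (insert 12 (insert w s)) + bd B (insert 11 (insert w s)) +
      bd B (insert 10 (insert w s))) + (bd B (insert 12 (insert 11 s)) +
      bd B (insert 12 (insert 10 s)) + bd B (insert 11 (insert 10 s))) ≤ Lam (KB B) s := by
  rw [Lam_KB hB s, P12_eq_sum B hs hs2, Pz_eq hs2 hs, sum_add_distrib, sum_add_distrib,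
    sum_add_distrib]
  have h1 : ∀ k : Fin 13, ∑ w ∈ R10 \ s, bd B (insert k (insert w s)) ≤
      ∑ w ∈ R10 \ s, ex B (insert k (insert w s)) := fun k =>
    sum_le_sum fun w _ => bd_le_ex B _
  have h2 := h1 12
  have h3 := h1 11
  have h4 := h1 10
  have h5 : ∑ w ∈ R10 \ s, ex B (insert w (insert 10 s)) =
      ∑ w ∈ R10 \ s, ex B (insert 10 (insert w s)) :=
    sum_congr rfl fun w _ => by rw [insert_comm]
  have h6 := bd_le_ex B (insert 12 (insert 11 s))
  have h7 := bd_le_ex B (insert 12 (insert 10 s))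
  have h8 := bd_le_ex B (insert 11 (insert 10 s))
  omega

/-! ### row offsets -/

/-- the flag `21 ≤ cnt B {z, k}` is `1 ≤ mm B z k` -/
theorem mm_flag {B : Finset (Finset (Fin 13))} (hB : OddCover B) {z k : Fin 13} (h : z ≠ k) :
    1 ≤ mm B z k ↔ 21 ≤ cnt B {z, k} := by
  have h1 := cnt_pair hB h
  have h2 := Lam_pair hB h
  omega

end Pool.Agent.Helper28.TY
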