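import Pool.Agent.Helper28.TY.V3T

/-!
MP_8ee768_co, project TH-Y', stage 0, engine V3: the functions of V3.lean applied to a word
`pk 4 2049 w`: one step of `kids`, the child with and without a hit.
-/

set_option autoImplicit false
set_option exponentiation.threshold 20000

namespace Pool.Agent.Helper28.TY.V3K

open Finset Pool.Agent.Helper63.SIMD Pool.Agent.Helper97.TY Pool.Agent.Helper69.TY.V3
open Pool.Agent.Helper79.CV (L length_L mem_L lt_of_mem_L nodup_L)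
open Pool.Agent.Helper28.TY.V3T

section

variable {zm Zt m n S N N1 rest al : ℕ} {ih kn : Fn} {w : ℕ → ℕ} {A : Finset ℕ}

/-- the fuel is used up -/
theorem kids_zero : kids zm ih Zt m 0 al N S = 0 := rfl

/-- no candidate left -/
theorem kids_nil : kids zm ih Zt m (n + 1) (8 * gs 4 ∅) N S = S := by
  have h : 8 * gs 4 ∅ = 0 := by
    rw [gs_eq_zero.2 rfl]
  rw [h]
  rfl

/-- **the next candidate** -/
theorem kids_step {a : ℕ} (ha : a ∈ A) (hmin : ∀ b ∈ A, a ≤ b) :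
    kids zm ih Zt (4 * m) (n + 1) (8 * gs 4 A) N S =
      c0 zm ih (kids zm ih Zt (4 * m) n) Zt (8 * gs 4 (A.erase a)) N S (2 ^ (4 * (m + a) + 3)) := by
  have h0 : Nat.beq (8 * gs 4 A) 0 = false := by
    rw [← Bool.not_eq_true, Nat.beq_eq]
    intro h
    have h1 : gs 4 A = 0 := by omega
    rw [gs_eq_zero] at h1
    rw [h1] at ha
    exact notMem_empty a ha
  show @Bool.rec (fun _ => ℕ) (nx zm ih (kids zm ih Zt (4 * m) n) Zt (4 * m) (8 * gs 4 A) N S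
    (Nat.land (8 * gs 4 A) (Nat.sub (8 * gs 4 A) 1))) S (Nat.beq (8 * gs 4 A) 0) = _
  rw [h0, low_gs ha hmin]
  show c0 zm ih (kids zm ih Zt (4 * m) n) Zt (8 * gs 4 (A.erase a)) N S
    (Nat.shiftLeft (Nat.sub (8 * gs 4 A) (8 * gs 4 (A.erase a))) (4 * m)) = _
  rw [q_eq ha]

theorem rmv_lt {Q : ℕ} (hw : ∀ j < 2049, w j < 16) : ∀ j < 2049, rmv w Q j < 16 := by
  intro j hj
  unfold rmv
  have := hw j hj
  split_ifs <;> omega

theorem xor_one_lt {x : ℕ} (hx : x < 16) : x ^^^ 1 < 16 :=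
  Nat.xor_lt_two_pow (n := 4) hx (by norm_num)

theorem flip_lt {Q : ℕ} (hw : ∀ j < 2049, w j < 16) : ∀ j < 2049, V3T.flip w Q j < 16 := by
  intro j hj
  unfold V3T.flip
  have h1 := hw j hj
  split_ifs
  · exact xor_one_lt h1
  · exact h1

/-- the child before the case distinction -/
theorem c0_eq {Q : ℕ} (hw : ∀ j < 2049, w j < 16) (hQ : Q ∈ L 11 4) (h8 : 8 ≤ w Q) :
    c0 zm ih kn Zt rest (pk 4 2049 w) S (2 ^ (4 * Q + 3)) =
      c2 zm ih kn Zt rest (pk 4 2049 (rmv w Q)) S (gs 4 (subs Q)) (gs 4 (bad (rmv w Q) Q)) := by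
  have hQ2 : Q < 2048 := P_lt (mem_P.2 hQ)
  show c1 zm ih kn Zt rest (Nat.sub (pk 4 2049 w) (2 ^ (4 * Q + 3))) S
    (Nat.land (Nat.shiftRight (Nat.mul (2 ^ (4 * Q + 3)) kT) 4099) cT) = _
  rw [N1_eq (by omega) h8, tm_eq hQ]
  show c2 zm ih kn Zt rest (pk 4 2049 (rmv w Q)) S (gs 4 (subs Q))
    (Nat.land (pk 4 2049 (rmv w Q)) (gs 4 (subs Q))) = _
  rw [bd_eq (rmv_lt hw)]

/-- **the child without a hit** -/
theorem c0_fast {Q : ℕ} (hw : ∀ j < 2049, w j < 16) (hQ : Q ∈ L 11 4) (h8 : 8 ≤ w Q)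
    (h0 : bad (rmv w Q) Q = ∅) :
    c0 zm ih kn Zt rest (pk 4 2049 w) S (2 ^ (4 * Q + 3)) =
      kn rest (pk 4 2049 (rmv w Q)) (ih (pr (pk 4 2049 (V3T.flip (rmv w Q) Q))
        (Nat.land (gs 4 (subs Q)) Zt)) Zt S) := by
  rw [c0_eq hw hQ h8, h0, gs_eq_zero.2 rfl]
  show kn rest (pk 4 2049 (rmv w Q)) (ih (pr (Nat.add (pk 4 2049 (rmv w Q)) (gs 4 (subs Q)))
    (Nat.land (gs 4 (subs Q)) Zt)) Zt S) = _
  rw [add_tm Q h0]

theorem subs_land {Q : ℕ} {B : Finset ℕ} (hB : ∀ a ∈ B, a < 2049) :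
    Nat.land (gs 4 (subs Q)) (gs 4 B) = gs 4 (subs Q ∩ B) :=
  gs_land (by norm_num) subs_lt' hB

theorem c2_false {tm bd : ℕ} (h : bd ≠ 0) :
    c2 zm ih kn Zt rest N1 S tm bd = h1 zm ih kn rest N1 S (Nat.add (Nat.xor N1 tm)
      (Nat.land (Nat.shiftRight (Nat.mul bd kD) (nat_lit 6144)) c3S)) := by
  have h0 : Nat.beq bd (nat_lit 0) = false := by
    rw [← Bool.not_eq_true]
    exact fun h1 => h (Nat.eq_of_beq_eq_true h1)
  have h2 : c2 zm ih kn Zt rest N1 S tm bd = @Bool.rec (fun _ => ℕ)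
    (h1 zm ih kn rest N1 S
      (Nat.add (Nat.xor N1 tm) (Nat.land (Nat.shiftRight (Nat.mul bd kD) (nat_lit 6144)) c3S)))
    (f1 ih kn Zt rest N1 S tm)
    (Nat.beq bd (nat_lit 0)) := rfl
  rw [h2, h0]

/-- **the child with a hit** -/
theorem c0_slow {Q : ℕ} (hw : ∀ j < 2049, w j < 16) (hQ : Q ∈ L 11 4) (h8 : 8 ≤ w Q)
    (h0 : (bad (rmv w Q) Q).Nonempty) :
    c0 zm ih kn Zt rest (pk 4 2049 w) S (2 ^ (4 * Q + 3)) =
      h1 zm ih kn rest (pk 4 2049 (rmv w Q)) S (Nat.add (pk 4 2049 (V3T.flip (rmv w Q) Q))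
        (Nat.land (Nat.shiftRight (Nat.mul (gs 4 (bad (rmv w Q) Q)) kD) 6144) c3S)) := by
  rw [c0_eq hw hQ h8, c2_false fun h => h0.ne_empty (gs_eq_zero.1 h), xor_tm (rmv_lt hw)]

theorem P1_not_2048 : 2048 ∉ ovr w := fun h => by
  have := P_lt (mem_filter.1 h).1
  omega

theorem norm_2048 : V3T.norm w 2048 = w 2048 + (ovr w).card := by
  unfold V3T.norm
  rw [if_neg P1_not_2048, if_pos rfl]

theorem norm_lt (hw : ∀ j < 2049, w j < 16) (hb : w 2048 + (ovr w).card < 16) :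
    ∀ j < 2049, V3T.norm w j < 16 := by
  intro j hj
  have h1 := hw j hj
  unfold V3T.norm
  split_ifs with h2 h3
  · omega
  · rw [h3]
    exact hb
  · exact h1

theorem h1_unfold {w2 : ℕ → ℕ} (hw : ∀ j < 2049, w2 j < 16) (h13 : ∀ p ∈ P 1, w2 p ≤ 13) :
    h1 zm ih kn rest N1 S (pk 4 2049 w2) =
      @Bool.rec (fun _ => ℕ) (kn rest N1 S)
        (kn rest N1 (ih (pr (pk 4 2049 (V3T.norm w2))
          (Nat.land (pk 4 2049 (V3T.norm w2)) (zt zm (pk 4 2049 (V3T.norm w2)))))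
          (zt zm (pk 4 2049 (V3T.norm w2))) S))
        (Nat.beq (Nat.lor (Nat.land (gs 4 (ovr w2)) zm) (Nat.land (pk 4 2049 (V3T.norm w2)) cB)) 0) := by
  show h2 zm ih kn rest N1 S (pk 4 2049 w2)
    (Nat.land (Nat.shiftRight (Nat.add (pk 4 2049 w2) c2S) 3) cS) = _
  rw [G_eq hw h13]
  show h3 zm ih kn rest N1 S (gs 4 (ovr w2))
    (Nat.sub (Nat.add (pk 4 2049 w2) (Nat.shiftLeft (Nat.mod (gs 4 (ovr w2)) 15) 8192))
      (Nat.mul 3 (gs 4 (ovr w2)))) = _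
  rw [N3_eq]
  rfl

/-- **the child with a hit: dead** -/
theorem h1_dead {w2 : ℕ → ℕ} {Zs : Finset ℕ} (hw : ∀ j < 2049, w2 j < 16)
    (h13 : ∀ p ∈ P 1, w2 p ≤ 13) (hb : w2 2048 + (ovr w2).card < 16) (hZ : ∀ a ∈ Zs, a < 2049)
    (hd : (ovr w2 ∩ Zs).Nonempty ∨ 8 ≤ w2 2048 + (ovr w2).card) :
    h1 (gs 4 Zs) ih kn rest N1 S (pk 4 2049 w2) = kn rest N1 S := by
  have h0 : Nat.beq (Nat.lor (Nat.land (gs 4 (ovr w2)) (gs 4 Zs))
      (Nat.land (pk 4 2049 (V3T.norm w2)) cB)) 0 = false := by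
    rw [← Bool.not_eq_true, dead_eq (A := ovr w2) (norm_lt hw hb)
      (fun a ha => P_lt' a (mem_filter.1 ha).1) hZ, norm_2048]
    rintro ⟨h1, h2⟩
    rcases hd with h3 | h3
    · exact h3.ne_empty h1
    · omega
  rw [h1_unfold hw h13, h0]

/-- **the child with a hit: go on** -/
theorem h1_live {w2 : ℕ → ℕ} {Zs : Finset ℕ} (hw : ∀ j < 2049, w2 j < 16)
    (h13 : ∀ p ∈ P 1, w2 p ≤ 13) (hb : w2 2048 + (ovr w2).card < 8) (hZ : ∀ a ∈ Zs, a < 2049)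
    (hd : ovr w2 ∩ Zs = ∅) :
    h1 (gs 4 Zs) ih kn rest N1 S (pk 4 2049 w2) =
      kn rest N1 (ih (pr (pk 4 2049 (V3T.norm w2))
          (Nat.land (pk 4 2049 (V3T.norm w2)) (zt (gs 4 Zs) (pk 4 2049 (V3T.norm w2)))))
          (zt (gs 4 Zs) (pk 4 2049 (V3T.norm w2))) S) := by
  have h0 : Nat.beq (Nat.lor (Nat.land (gs 4 (ovr w2)) (gs 4 Zs))
      (Nat.land (pk 4 2049 (V3T.norm w2)) cB)) 0 = true := by
    rw [dead_eq (A := ovr w2) (norm_lt hw (by omega)) (fun a ha => P_lt' a (mem_filter.1 ha).1) hZ,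
      norm_2048]
    exact ⟨hd, hb⟩
  rw [h1_unfold hw h13, h0]

/-- the odd triples among `B` -/
theorem land_odd {B : Finset ℕ} (hw : ∀ j < 2049, w j < 16) (hB : ∀ a ∈ B, a < 2049) :
    Nat.land (pk 4 2049 w) (gs 4 B) = gs 4 (B.filter fun t => w t % 2 = 1) :=
  pk_land_gs1 (by norm_num) hB hw

/-- a node, the parity test -/
theorem nd2_true {ot : Fn} {S0 R : ℕ} (h : Nat.land R 15 = 6) :
    nd2 zm ot ih N Zt S0 S m R = kids zm ih Zt m (nat_lit 9) (Nat.land R c8S) N S := by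
  have h0 : Nat.beq (Nat.land R (nat_lit 15)) (nat_lit 6) = true := by
    rw [Nat.beq_eq]
    exact h
  have h1 : nd2 zm ot ih N Zt S0 S m R =
    @Bool.rec (fun _ => ℕ) (ot N S (Nat.land S0 (nat_lit 16380)))
    (kids zm ih Zt m (nat_lit 9) (Nat.land R c8S) N S)
    (Nat.beq (Nat.land R (nat_lit 15)) (nat_lit 6)) := rfl
  rw [h1, h0]

theorem nd2_false {ot : Fn} {S0 R : ℕ} (h : Nat.land R 15 ≠ 6) :
    nd2 zm ot ih N Zt S0 S m R = ot N S (Nat.land S0 (nat_lit 16380)) := by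
  have h0 : Nat.beq (Nat.land R (nat_lit 15)) (nat_lit 6) = false := by
    rw [← Bool.not_eq_true]
    exact fun h1 => h (Nat.eq_of_beq_eq_true h1)
  have h1 : nd2 zm ot ih N Zt S0 S m R =
    @Bool.rec (fun _ => ℕ) (ot N S (Nat.land S0 (nat_lit 16380)))
    (kids zm ih Zt m (nat_lit 9) (Nat.land R c8S) N S)
    (Nat.beq (Nat.land R (nat_lit 15)) (nat_lit 6)) := rfl
  rw [h1, h0]

theorem kids_congr {k al' : ℕ} (h : al = al') :
    kids zm ih Zt m k al N S = kids zm ih Zt m k al' N S := by rw [h]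

/-- **a node** -/
theorem nd2_node {ot : Fn} {m S0 : ℕ} (hm : w m = 6) (hw : ∀ j < 2049, w j < 16)
    (hb : w 2048 < 8) (hm2 : m < 2048) :
    nd2 zm ot ih (pk 4 2049 w) Zt S0 S (4 * m) (Nat.shiftRight (pk 4 2049 w) (4 * m)) =
      kids zm ih Zt (4 * m) (nat_lit 9) (8 * gs 4 (cand w m)) (pk 4 2049 w) S :=
  (nd2_true ((test_par hw hm2).trans hm)).trans (kids_congr (al_eq hw hb))

/-- not a node -/
theorem nd2_other {ot : Fn} {m S0 : ℕ} (hm : w m ≠ 6) (hw : ∀ j < 2049, w j < 16)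
    (hm2 : m < 2048) :
    nd2 zm ot ih (pk 4 2049 w) Zt S0 S (4 * m) (Nat.shiftRight (pk 4 2049 w) (4 * m)) =
      ot (pk 4 2049 w) S (Nat.land S0 (nat_lit 16380)) :=
  nd2_false fun h => hm ((test_par hw hm2).symm.trans h)

end

end Pool.Agent.Helper28.TY.V3K
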