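import Pool.Agent.Helper97.TY.Cell
import Pool.Agent.Helper97.CV.Cube
import Pool.Agent.Helper69.TY.V3
import Pool.Agent.Helper79.CV.Colex

/-!
MP_8ee768_co, project TH-Y', stage 0, engine V3: the cell facts [T], [C], [G].

State = one number `pk 4 2049 w` (cells of 4 bits, the index of a cell is a mask, cell 2048 = budget).
[T] the triples of a quad and the parity step; [C] the candidates of a node and the loop over them;
[G] the carry of the digits, the budget and the dead test.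
-/

set_option autoImplicit false
set_option exponentiation.threshold 20000

namespace Pool.Agent.Helper28.TY.V3T

open Finset Pool.Agent.Helper63.SIMD Pool.Agent.Helper97.TY Pool.Agent.Helper69.TY.V3
open Pool.Agent.Helper79.CV (L length_L mem_L lt_of_mem_L nodup_L)

/-- the masks of size `i` -/
def P (i : ℕ) : Finset ℕ := (L 11 i).toFinset

theorem mem_P {i m : ℕ} : m ∈ P i ↔ m ∈ L 11 i := List.mem_toFinset

theorem P_lt {i m : ℕ} (h : m ∈ P i) : m < 2048 := by
  have := lt_of_mem_L (mem_P.1 h)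
  rwa [show (2 : ℕ) ^ 11 = 2048 by norm_num] at this

/-- list form of `gs` -/
def gl : List ℕ → ℕ
  | [] => 0
  | a :: l => Nat.add (Nat.pow 2 (Nat.mul 4 a)) (gl l)

theorem gs_toFinset : ∀ {l : List ℕ}, l.Nodup → gs 4 l.toFinset = gl l
  | [], _ => by
    unfold gs
    rw [List.toFinset_nil, sum_empty]
    rfl
  | a :: l, h => by
    have h1 := List.nodup_cons.1 h
    rw [List.toFinset_cons]
    unfold gs
    rw [sum_insert (fun h2 => h1.1 (List.mem_toFinset.1 h2))]
    exact congrArg (fun x => 2 ^ (4 * a) + x) (gs_toFinset h1.2)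

theorem gs_P (i : ℕ) : gs 4 (P i) = gl (L 11 i) := gs_toFinset (nodup_L 11 i)

/-! ## constants -/

theorem cS_eq : cS = gs 4 (P 1) := by
  rw [gs_P]
  decide +kernel

theorem c8S_eq : c8S = 8 * gs 4 (P 1) := by
  rw [gs_P]
  decide +kernel

theorem c2S_eq : c2S = 2 * gs 4 (P 1) := by
  rw [gs_P]
  decide +kernel

theorem c3S_eq : c3S = 3 * gs 4 (P 1) := by
  rw [gs_P]
  decide +kernel

theorem cT_eq : cT = gs 4 (P 3) := by
  rw [gs_P]
  decide +kernel

theorem cB_eq : cB = 2 ^ 8195 := by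
  decide +kernel

/-! ## [T] the triples of a quad -/

/-- the triples of the quad `Q` -/
def subs (Q : ℕ) : Finset ℕ := (P 3).filter fun t => t &&& Q = t

theorem mem_subs {Q t : ℕ} : t ∈ subs Q ↔ t ∈ L 11 3 ∧ t &&& Q = t := by
  unfold subs
  rw [mem_filter, mem_P]

def tOK : Bool := (L 11 4).all fun Q =>
  Nat.beq (Nat.land (Nat.shiftRight (Nat.mul (Nat.pow 2 (Nat.add (Nat.mul 4 Q) 3)) kT) 4099) cT)
    (gl ((L 11 3).filter fun t => Nat.beq (Nat.land t Q) t))

theorem tOK_ok : tOK = true := by decide +kernel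

theorem gs_subs (Q : ℕ) :
    gs 4 (subs Q) = gl ((L 11 3).filter fun t => Nat.beq (Nat.land t Q) t) := by
  have h : subs Q = ((L 11 3).filter fun t => Nat.beq (Nat.land t Q) t).toFinset := by
    ext t
    rw [mem_subs, List.mem_toFinset, List.mem_filter, Nat.beq_eq]
    rfl
  rw [h, gs_toFinset ((nodup_L 11 3).filter _)]

/-- **[T]** -/
theorem tm_eq {Q : ℕ} (hQ : Q ∈ L 11 4) :
    Nat.land (Nat.shiftRight (Nat.mul (2 ^ (4 * Q + 3)) kT) 4099) cT = gs 4 (subs Q) := by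
  have h := List.all_eq_true.1 tOK_ok Q hQ
  rw [gs_subs]
  exact Nat.eq_of_beq_eq_true h

/-! ## general facts on cells -/

section

variable {W n : ℕ} {w : ℕ → ℕ} {A B : Finset ℕ}

theorem pk_ext (k : ℕ) : pk W n w = pk W (n + k) (fun j => if j < n then w j else 0) := by
  unfold pk
  rw [sum_range_add]
  have h1 : ∑ x ∈ range k, (if n + x < n then w (n + x) else 0) * 2 ^ (W * (n + x)) = 0 := by
    refine sum_eq_zero fun x _ => ?_
    rw [if_neg (by omega), Nat.zero_mul]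
  rw [h1, Nat.add_zero]
  refine sum_congr rfl fun j hj => ?_
  show w j * _ = (if j < n then w j else 0) * _
  rw [if_pos (mem_range.1 hj)]

theorem pk_add_gs {k : ℕ} (hA : ∀ a ∈ A, a < n) :
    pk W n w + k * gs W A = pk W n (fun j => if j ∈ A then w j + k else w j) := by
  rw [mul_gs_eq_pk hA, pk_add]
  refine pk_congr fun j _ => ?_
  by_cases h : j ∈ A
  · rw [if_pos h, if_pos h]
  · rw [if_neg h, if_neg h, Nat.add_zero]

theorem pk_sub_gs {k : ℕ} (hA : ∀ a ∈ A, a < n) (hk : ∀ a ∈ A, k ≤ w a) :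
    pk W n w - k * gs W A = pk W n (fun j => if j ∈ A then w j - k else w j) := by
  rw [mul_gs_eq_pk hA, pk_sub]
  · refine pk_congr fun j _ => ?_
    by_cases h : j ∈ A
    · rw [if_pos h, if_pos h]
    · rw [if_neg h, if_neg h, Nat.sub_zero]
  · intro j _
    by_cases h : j ∈ A
    · rw [if_pos h]
      exact hk j h
    · rw [if_neg h]
      exact Nat.zero_le _

theorem gs_singleton (a : ℕ) : gs W {a} = 2 ^ (W * a) := by
  unfold gs
  rw [sum_singleton]

theorem gs_eq_zero : gs W A = 0 ↔ A = ∅ := by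
  constructor
  · intro h
    unfold gs at h
    rw [sum_eq_zero_iff] at h
    rw [eq_empty_iff_forall_notMem]
    intro a ha
    have h1 := h a ha
    have h2 := Nat.two_pow_pos (W * a)
    omega
  · rintro rfl
    unfold gs
    rw [sum_empty]

theorem gs_land (hW : 0 < W) (hA : ∀ a ∈ A, a < n) (hB : ∀ a ∈ B, a < n) :
    gs W A &&& gs W B = gs W (A ∩ B) := by
  have h01 : ∀ (C : Finset ℕ), ∀ i < n, (if i ∈ C then 1 else 0) < 2 ^ W := by
    intro C i _
    split_ifs
    · exact Nat.one_lt_two_pow hW.ne'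
    · exact Nat.two_pow_pos W
  have hAB : ∀ a ∈ A ∩ B, a < n := fun a ha => hA a (mem_inter.1 ha).1
  rw [gs_eq_pk hA, gs_eq_pk hB, gs_eq_pk hAB, pk_land (h01 A) (h01 B)]
  refine pk_congr fun j _ => ?_
  by_cases h1 : j ∈ A
  · by_cases h2 : j ∈ B
    · rw [if_pos h1, if_pos h2, if_pos (mem_inter.2 ⟨h1, h2⟩)]
      rfl
    · rw [if_pos h1, if_neg h2, if_neg fun h => h2 (mem_inter.1 h).2]
      rfl
  · rw [if_neg h1, if_neg fun h => h1 (mem_inter.1 h).1, Nat.zero_and]

theorem gs_mod (hA : A.card < 2 ^ W - 1) : gs W A % (2 ^ W - 1) = A.card := by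
  have h1 : ∀ k, 2 ^ (W * k) % (2 ^ W - 1) = 1 % (2 ^ W - 1) := by
    intro k
    have h0 : 1 ≤ 2 ^ W := Nat.one_le_two_pow
    induction k with
    | zero => rw [Nat.mul_zero, pow_zero]
    | succ k ih =>
      rw [Nat.mul_add, Nat.mul_one, pow_add, Nat.mul_mod, ih]
      have h2 : 2 ^ W % (2 ^ W - 1) = 1 % (2 ^ W - 1) := by
        obtain ⟨x, hx⟩ : ∃ x, x = 2 ^ W - 1 := ⟨_, rfl⟩
        have h3 : 2 ^ W = 1 + x := by omega
        rw [h3, show 1 + x - 1 = x by omega, Nat.add_mod_right]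
      rw [h2, ← Nat.mul_mod, Nat.mul_one]
  have h2 : gs W A % (2 ^ W - 1) = (∑ _a ∈ A, 1) % (2 ^ W - 1) := by
    unfold gs
    rw [sum_nat_mod, sum_nat_mod (s := A) (f := fun _ => 1)]
    congr 1
    exact sum_congr rfl fun a _ => h1 a
  rw [h2, sum_const, smul_eq_mul, Nat.mul_one, Nat.mod_eq_of_lt hA]

/-- removing the lowest bit -/
theorem land_pred (k u : ℕ) :
    Nat.land (2 ^ k * (2 * u + 1)) (Nat.sub (2 ^ k * (2 * u + 1)) 1) = 2 ^ k * (2 * u) := by
  have h0 : 1 ≤ 2 ^ k := Nat.one_le_two_pow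
  have h1 : 2 ^ k * (2 * u + 1) - 1 = 2 ^ k * (2 * u) + (2 ^ k - 1) := by
    rw [Nat.mul_add, Nat.mul_one]
    omega
  show (2 ^ k * (2 * u + 1)) &&& (2 ^ k * (2 * u + 1) - 1) = _
  have h2 : 2 ^ k * (2 * u + 1) = 2 ^ k * (2 * u + 1) + 0 := rfl
  rw [h1]
  conv_lhs => rw [h2]
  rw [land_cons (Nat.two_pow_pos k) (by omega), Nat.zero_and, Nat.add_zero]
  congr 1
  have h3 := land_cons (W := 1) (x := u) (y := u) (p := 1) (q := 0) (by norm_num) (by norm_num)
  rw [pow_one, Nat.and_self, Nat.and_zero, Nat.add_zero, Nat.add_zero] at h3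
  exact h3

theorem gs_insert {a : ℕ} (ha : a ∉ A) : gs W (insert a A) = 2 ^ (W * a) + gs W A := by
  unfold gs
  rw [sum_insert ha]

/-- **the lowest candidate** -/
theorem low_gs {A : Finset ℕ} {a : ℕ} (ha : a ∈ A) (hmin : ∀ b ∈ A, a ≤ b) :
    Nat.land (8 * gs 4 A) (Nat.sub (8 * gs 4 A) 1) = 8 * gs 4 (A.erase a) := by
  have h1 : gs 4 A = 2 ^ (4 * a) + gs 4 (A.erase a) := by
    rw [← gs_insert (notMem_erase a A), insert_erase ha]
  obtain ⟨z, hz⟩ : 2 ^ (4 * (a + 1)) ∣ gs 4 (A.erase a) := by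
    unfold gs
    refine dvd_sum fun b hb => Nat.pow_dvd_pow 2 ?_
    have h2 := hmin b (mem_of_mem_erase hb)
    have h3 := ne_of_mem_erase hb
    omega
  have h4 : 8 * gs 4 (A.erase a) = 2 ^ (4 * a + 3) * (2 * (8 * z)) := by
    rw [hz, Nat.mul_add, pow_add, pow_add]
    ring
  have h5 : 8 * gs 4 A = 2 ^ (4 * a + 3) * (2 * (8 * z) + 1) := by
    rw [h1, Nat.mul_add, h4, pow_add]
    ring
  rw [h5, land_pred, h4]

theorem al_sub_rest {A : Finset ℕ} {a : ℕ} (ha : a ∈ A) :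
    Nat.sub (8 * gs 4 A) (8 * gs 4 (A.erase a)) = 2 ^ (4 * a + 3) := by
  have h1 : gs 4 A = 2 ^ (4 * a) + gs 4 (A.erase a) := by
    rw [← gs_insert (notMem_erase a A), insert_erase ha]
  show 8 * gs 4 A - 8 * gs 4 (A.erase a) = _
  rw [h1, Nat.mul_add, Nat.add_sub_cancel, pow_add]
  ring

/-- shift by `W * m` where the cells stay below a bound -/
theorem pk_shr' {m : ℕ} (hw : ∀ j < n, w j < 2 ^ W) :
    pk W n w >>> (W * m) = pk W n (fun j => if m + j < n then w (m + j) else 0) := by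
  rw [pk_ext m, Nat.add_comm n m, pk_shr]
  intro j _
  show (if j < n then w j else 0) < 2 ^ W
  split_ifs with h
  · exact hw j h
  · exact Nat.two_pow_pos W

theorem pk_mod (hn : 0 < n) (hw : w 0 < 2 ^ W) : pk W n w % 2 ^ W = w 0 := by
  obtain ⟨k, rfl⟩ := Nat.exists_eq_succ_of_ne_zero hn.ne'
  rw [Nat.succ_eq_add_one, pk_cons, Nat.mul_add_mod, Nat.mod_eq_of_lt hw]

theorem pk_land_gs1 (hW : 0 < W) (hA : ∀ a ∈ A, a < n) (hw : ∀ j < n, w j < 2 ^ W) :
    pk W n w &&& gs W A = gs W (A.filter fun a => w a % 2 = 1) := by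
  have h1 := pk_land_gs (k := 1) hA hw (Nat.one_lt_two_pow hW.ne')
  rw [Nat.one_mul] at h1
  rw [h1, gs_eq_pk fun a ha => hA a (mem_filter.1 ha).1]
  refine pk_congr fun j _ => ?_
  by_cases h : j ∈ A
  · rw [if_pos h, Nat.and_one_is_mod]
    by_cases h2 : w j % 2 = 1
    · rw [if_pos (mem_filter.2 ⟨h, h2⟩), h2]
    · have h4 : j ∉ A.filter fun a => w a % 2 = 1 := fun h3 => h2 (mem_filter.1 h3).2
      rw [if_neg h4]
      omega
  · rw [if_neg h, if_neg fun h3 => h (mem_filter.1 h3).1]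

theorem pk_xor_gs (hW : 0 < W) (hA : ∀ a ∈ A, a < n) (hw : ∀ j < n, w j < 2 ^ W) :
    Nat.xor (pk W n w) (gs W A) = pk W n (fun j => if j ∈ A then w j ^^^ 1 else w j) := by
  show pk W n w ^^^ gs W A = _
  rw [gs_eq_pk hA, pk_xor hw]
  · refine pk_congr fun j _ => ?_
    by_cases h : j ∈ A
    · rw [if_pos h, if_pos h]
    · rw [if_neg h, if_neg h, Nat.xor_zero]
  · intro j _
    split_ifs
    · exact Nat.one_lt_two_pow hW.ne'
    · exact Nat.two_pow_pos W

end

/-! ## [C] the candidates of a node -/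

section

variable {w : ℕ → ℕ} {m : ℕ}

/-- the points `p` (as masks) such that the quad `m + p` is available -/
def cand (w : ℕ → ℕ) (m : ℕ) : Finset ℕ := (P 1).filter fun p => m + p < 2048 ∧ 8 ≤ w (m + p)

theorem mem_cand {p : ℕ} : p ∈ cand w m ↔ p ∈ L 11 1 ∧ m + p < 2048 ∧ 8 ≤ w (m + p) := by
  unfold cand
  rw [mem_filter, mem_P]

theorem P1_card : (P 1).card = 11 := by
  unfold P
  rw [List.card_toFinset, List.dedup_eq_self.2 (nodup_L 11 1), length_L]
  rfl

theorem cand_card : (cand w m).card ≤ 11 := by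
  have h := card_filter_le (P 1) fun p => m + p < 2048 ∧ 8 ≤ w (m + p)
  rw [P1_card] at h
  exact h

/-- **the parity test** -/
theorem test_par (hw : ∀ j < 2049, w j < 16) (hm : m < 2048) :
    Nat.land (Nat.shiftRight (pk 4 2049 w) (4 * m)) 15 = w m := by
  have h1 := pk_shr' (W := 4) (n := 2049) (w := w) (m := m) hw
  show (pk 4 2049 w >>> (4 * m)) &&& 15 = _
  have h2 := pk_mod (W := 4) (n := 2049) (w := fun j => if m + j < 2049 then w (m + j) else 0)
    (by norm_num) (by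
      show (if m + 0 < 2049 then w (m + 0) else 0) < 2 ^ 4
      rw [if_pos (by omega)]
      exact hw m (by omega))
  rw [h1, show (15 : ℕ) = 2 ^ 4 - 1 by norm_num, Nat.and_two_pow_sub_one_eq_mod, h2]
  show (if m + 0 < 2049 then w (m + 0) else 0) = w m
  rw [if_pos (by omega), Nat.add_zero]

/-- **the candidates** -/
theorem al_eq (hw : ∀ j < 2049, w j < 16) (hb : w 2048 < 8) :
    Nat.land (Nat.shiftRight (pk 4 2049 w) (4 * m)) c8S = 8 * gs 4 (cand w m) := by
  have h1 := pk_shr' (W := 4) (n := 2049) (w := w) (m := m) hw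
  have hw' : ∀ j < 2049, (if m + j < 2049 then w (m + j) else 0) < 2 ^ 4 := by
    intro j _
    split_ifs with h
    · exact hw _ h
    · norm_num
  have hP : ∀ a ∈ P 1, a < 2049 := fun a ha => by
    have := P_lt ha
    omega
  have hC : ∀ a ∈ cand w m, a < 2049 := fun a ha => hP a (mem_filter.1 ha).1
  show (pk 4 2049 w >>> (4 * m)) &&& c8S = _
  rw [h1, c8S_eq, pk_land_gs hP hw' (by norm_num), mul_gs_eq_pk hC]
  refine pk_congr fun j _ => ?_
  show (if j ∈ P 1 then (if m + j < 2049 then w (m + j) else 0) &&& 8 else 0) =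
    if j ∈ cand w m then 8 else 0
  have h8 : ∀ x < 16, x &&& 8 = if 8 ≤ x then 8 else 0 := by decide
  by_cases hj : j ∈ P 1
  · rw [if_pos hj]
    by_cases hj2 : m + j < 2049
    · rw [if_pos hj2, h8 _ (hw _ hj2)]
      by_cases hj3 : 8 ≤ w (m + j)
      · have hj4 : m + j < 2048 := by
          rcases Nat.lt_or_ge (m + j) 2048 with h | h
          · exact h
          · exfalso
            have h5 : m + j = 2048 := by omega
            rw [h5] at hj3
            omega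
        rw [if_pos hj3, if_pos (mem_cand.2 ⟨mem_P.1 hj, hj4, hj3⟩)]
      · rw [if_neg hj3, if_neg fun h => hj3 (mem_cand.1 h).2.2]
    · rw [if_neg hj2, Nat.zero_and, if_neg]
      intro h
      have := (mem_cand.1 h).2.1
      omega
  · rw [if_neg hj, if_neg fun h => hj (mem_P.2 (mem_cand.1 h).1)]

/-- the quad of a candidate -/
theorem q_eq {A : Finset ℕ} {a : ℕ} (ha : a ∈ A) :
    Nat.shiftLeft (Nat.sub (8 * gs 4 A) (8 * gs 4 (A.erase a))) (4 * m) = 2 ^ (4 * (m + a) + 3) := by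
  rw [al_sub_rest ha]
  show 2 ^ (4 * a + 3) <<< (4 * m) = _
  rw [Nat.shiftLeft_eq, ← pow_add]
  congr 1
  omega

/-- the word without the quad `Q` -/
def rmv (w : ℕ → ℕ) (Q j : ℕ) : ℕ := if j = Q then w j - 8 else w j

theorem N1_eq {Q : ℕ} (hQ : Q < 2049) (h8 : 8 ≤ w Q) :
    Nat.sub (pk 4 2049 w) (2 ^ (4 * Q + 3)) = pk 4 2049 (rmv w Q) := by
  have h1 : 2 ^ (4 * Q + 3) = 8 * gs 4 {Q} := by
    rw [gs_singleton, pow_add]
    ring
  have h2 := pk_sub_gs (W := 4) (n := 2049) (w := w) (A := {Q}) (k := 8)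
    (fun a ha => by rw [mem_singleton.1 ha]; exact hQ) (fun a ha => by rw [mem_singleton.1 ha]; exact h8)
  show pk 4 2049 w - 2 ^ (4 * Q + 3) = _
  rw [h1, h2]
  refine pk_congr fun j _ => ?_
  unfold rmv
  by_cases h : j = Q
  · rw [if_pos (mem_singleton.2 h), if_pos h]
  · rw [if_neg fun h3 => h (mem_singleton.1 h3), if_neg h]

/-- the odd triples of the quad `Q` -/
def bad (w : ℕ → ℕ) (Q : ℕ) : Finset ℕ := (subs Q).filter fun t => w t % 2 = 1

theorem mem_bad {Q t : ℕ} : t ∈ bad w Q ↔ t ∈ L 11 3 ∧ t &&& Q = t ∧ w t % 2 = 1 := by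
  unfold bad
  rw [mem_filter, mem_subs, and_assoc]

theorem subs_lt {Q t : ℕ} (h : t ∈ subs Q) : t < 2048 := P_lt (mem_filter.1 h).1

theorem subs_lt' {Q : ℕ} : ∀ t ∈ subs Q, t < 2049 := fun t h => by
  have := subs_lt h
  omega

/-- **the odd triples** -/
theorem bd_eq (hw : ∀ j < 2049, w j < 16) (Q : ℕ) :
    Nat.land (pk 4 2049 w) (gs 4 (subs Q)) = gs 4 (bad w Q) :=
  pk_land_gs1 (by norm_num) subs_lt' hw

/-- the parity step -/
def flip (w : ℕ → ℕ) (Q j : ℕ) : ℕ := if j ∈ subs Q then w j ^^^ 1 else w j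

theorem xor_tm (hw : ∀ j < 2049, w j < 16) (Q : ℕ) :
    Nat.xor (pk 4 2049 w) (gs 4 (subs Q)) = pk 4 2049 (flip w Q) :=
  pk_xor_gs (by norm_num) subs_lt' hw

theorem add_tm (Q : ℕ) (h0 : bad w Q = ∅) :
    Nat.add (pk 4 2049 w) (gs 4 (subs Q)) = pk 4 2049 (flip w Q) := by
  have h1 := pk_add_gs (W := 4) (n := 2049) (w := w) (A := subs Q) (k := 1) subs_lt'
  rw [Nat.one_mul] at h1
  show pk 4 2049 w + gs 4 (subs Q) = _
  rw [h1]
  refine pk_congr fun j _ => ?_
  unfold flip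
  by_cases h : j ∈ subs Q
  · rw [if_pos h, if_pos h]
    have h2 : w j % 2 = 0 := by
      have h3 : j ∉ bad w Q := by
        rw [h0]
        exact notMem_empty j
      unfold bad at h3
      rw [mem_filter, not_and] at h3
      have := h3 h
      omega
    exact (Nat.xor_one_of_even (Nat.even_iff.2 h2)).symm
  · rw [if_neg h, if_neg h]

end

/-! ## [G] carry of the digits, budget, dead test -/

section

variable {w : ℕ → ℕ}

/-- the points with the digit at least 6 -/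
def ovr (w : ℕ → ℕ) : Finset ℕ := (P 1).filter fun p => 6 ≤ w p

theorem mem_ovr {p : ℕ} : p ∈ ovr w ↔ p ∈ L 11 1 ∧ 6 ≤ w p := by
  unfold ovr
  rw [mem_filter, mem_P]

theorem P_lt' {i : ℕ} : ∀ p ∈ P i, p < 2049 := fun p h => by
  have := P_lt h
  omega

/-- add `c` and look at the bit 3 -/
theorem ge_eq {c : ℕ} (hw : ∀ j < 2049, w j < 16) (h1 : ∀ p ∈ P 1, w p + c < 16) :
    Nat.land (Nat.shiftRight (Nat.add (pk 4 2049 w) (c * gs 4 (P 1))) 3) (gs 4 (P 1)) =
      gs 4 ((P 1).filter fun p => 8 ≤ w p + c) := by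
  show ((pk 4 2049 w + c * gs 4 (P 1)) >>> 3) &&& gs 4 (P 1) = _
  rw [pk_add_gs P_lt', gs_eq_pk (A := P 1) (n := 2049) P_lt']
  have hm : ∀ j < 2049, (if j ∈ P 1 then 1 else 0) < 2 ^ (4 - 3) := by
    intro j _
    split_ifs <;> norm_num
  have hw2 : ∀ j < 2049, (if j ∈ P 1 then w j + c else w j) < 2 ^ 4 := by
    intro j hj
    split_ifs with h
    · exact h1 j h
    · exact hw j hj
  rw [Pool.Agent.Helper97.CV.Cube.lane_shr_land (by norm_num) hw2 hm,
    gs_eq_pk (n := 2049) fun a ha => P_lt' a (mem_filter.1 ha).1]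
  refine pk_congr fun j hj => ?_
  have h8 : ∀ x < 16, (x >>> 3) &&& 1 = if 8 ≤ x then 1 else 0 := by decide
  by_cases hj : j ∈ P 1
  · simp only [if_pos hj]
    rw [h8 _ (h1 j hj)]
    by_cases h2 : 8 ≤ w j + c
    · rw [if_pos h2, if_pos (mem_filter.2 ⟨hj, h2⟩)]
    · have h3 : j ∉ (P 1).filter fun p => 8 ≤ w p + c := fun h => h2 (mem_filter.1 h).2
      rw [if_neg h2, if_neg h3]
  · have h3 : j ∉ (P 1).filter fun p => 8 ≤ w p + c := fun h => hj (mem_filter.1 h).1
    simp only [if_neg hj]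
    rw [Nat.and_zero, if_neg h3]

/-- **[G]** -/
theorem G_eq (hw : ∀ j < 2049, w j < 16) (h1 : ∀ p ∈ P 1, w p ≤ 13) :
    Nat.land (Nat.shiftRight (Nat.add (pk 4 2049 w) c2S) 3) cS = gs 4 (ovr w) := by
  rw [c2S_eq, cS_eq, ge_eq hw fun p hp => by have := h1 p hp; omega]
  congr 1
  unfold ovr
  refine filter_congr fun p _ => ?_
  omega

theorem ovr_card : (ovr w).card ≤ 11 := by
  have h := card_filter_le (P 1) fun p => 6 ≤ w p
  rw [P1_card] at h
  exact h

/-- the reduced word -/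
def norm (w : ℕ → ℕ) (j : ℕ) : ℕ :=
  if j ∈ ovr w then w j - 3 else if j = 2048 then w j + (ovr w).card else w j

/-- **reduced digits and budget** -/
theorem N3_eq :
    Nat.sub (Nat.add (pk 4 2049 w) (Nat.shiftLeft (Nat.mod (gs 4 (ovr w)) 15) 8192))
      (Nat.mul 3 (gs 4 (ovr w))) = pk 4 2049 (norm w) := by
  have hA : ∀ a ∈ ovr w, a < 2048 := fun a ha => P_lt (mem_filter.1 ha).1
  have h1 : gs 4 (ovr w) % 15 = (ovr w).card := by
    have h2 := gs_mod (W := 4) (A := ovr w) (by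
      have := ovr_card (w := w)
      norm_num
      omega)
    norm_num at h2
    exact h2
  have h2 : (ovr w).card <<< 8192 = (ovr w).card * gs 4 {2048} := by
    rw [gs_singleton, Nat.shiftLeft_eq]
  show pk 4 2049 w + (gs 4 (ovr w) % 15) <<< 8192 - 3 * gs 4 (ovr w) = _
  rw [h1, h2, pk_add_gs fun a ha => by rw [mem_singleton.1 ha]; norm_num, pk_sub_gs]
  · refine pk_congr fun j _ => ?_
    unfold norm
    by_cases h : j ∈ ovr w
    · have h3 : j ≠ 2048 := (hA j h).ne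
      rw [if_pos h, if_pos h, if_neg fun h4 => h3 (mem_singleton.1 h4)]
    · rw [if_neg h, if_neg h]
      by_cases h3 : j = 2048
      · rw [if_pos h3, if_pos (mem_singleton.2 h3)]
      · rw [if_neg h3, if_neg fun h4 => h3 (mem_singleton.1 h4)]
  · intro a ha
    have := hA a ha
    omega
  · intro a ha
    have h3 : a ≠ 2048 := (hA a ha).ne
    rw [if_neg fun h4 => h3 (mem_singleton.1 h4)]
    have := (mem_ovr.1 ha).2
    omega

/-- **the dead test** -/
theorem dead_eq {v : ℕ → ℕ} {A Z : Finset ℕ} (hv : ∀ j < 2049, v j < 16)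
    (hA : ∀ a ∈ A, a < 2049) (hZ : ∀ a ∈ Z, a < 2049) :
    Nat.beq (Nat.lor (Nat.land (gs 4 A) (gs 4 Z)) (Nat.land (pk 4 2049 v) cB)) 0 = true ↔
      A ∩ Z = ∅ ∧ v 2048 < 8 := by
  rw [Nat.beq_eq]
  have h1 : Nat.land (gs 4 A) (gs 4 Z) = gs 4 (A ∩ Z) := gs_land (by norm_num) hA hZ
  have h2 : Nat.land (pk 4 2049 v) cB = if 8 ≤ v 2048 then 2 ^ 8195 else 0 := by
    have h3 : cB = 8 * gs 4 {2048} := by
      rw [cB_eq, gs_singleton, show (8195 : ℕ) = 3 + 4 * 2048 by norm_num, pow_add]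
      rfl
    have h4 : ∀ a ∈ ({2048} : Finset ℕ), a < 2049 := fun a ha => by
      rw [mem_singleton.1 ha]
      norm_num
    show pk 4 2049 v &&& cB = _
    rw [h3, pk_land_gs h4 hv (by norm_num)]
    have h8 : ∀ x < 16, x &&& 8 = if 8 ≤ x then 8 else 0 := by decide
    by_cases h5 : 8 ≤ v 2048
    · rw [if_pos h5, ← cB_eq, h3, mul_gs_eq_pk h4]
      refine pk_congr fun j _ => ?_
      by_cases h6 : j ∈ ({2048} : Finset ℕ)
      · rw [if_pos h6, if_pos h6, mem_singleton.1 h6, h8 _ (hv 2048 (by norm_num)), if_pos h5]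
      · rw [if_neg h6, if_neg h6]
    · rw [if_neg h5]
      have h7 : pk 4 2049 (fun m => if m ∈ ({2048} : Finset ℕ) then v m &&& 8 else 0) =
          pk 4 2049 fun _ => 0 := by
        refine pk_congr fun j _ => ?_
        by_cases h6 : j ∈ ({2048} : Finset ℕ)
        · rw [if_pos h6, mem_singleton.1 h6, h8 _ (hv 2048 (by norm_num)), if_neg h5]
        · rw [if_neg h6]
      rw [h7]
      unfold pk
      exact sum_eq_zero fun _ _ => Nat.zero_mul _
  have h3 : ∀ a b : ℕ, Nat.lor a b = 0 ↔ a = 0 ∧ b = 0 := by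
    intro a b
    exact Nat.or_eq_zero_iff
  rw [h1, h2, h3, gs_eq_zero]
  refine and_congr_right fun _ => ?_
  by_cases h5 : 8 ≤ v 2048
  · rw [if_pos h5]
    have := Nat.two_pow_pos 8195
    omega
  · rw [if_neg h5]
    omega

end

end Pool.Agent.Helper28.TY.V3T
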